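import Mathlib
import Pool.Agent.Helper14_LA.Core

set_option autoImplicit false

open SimpleGraph Pool.Agent.Helper14_LA

namespace Pool.Agent.Helper75_LA

variable {X : Type*}

lemma cycle_nbrs {F : SimpleGraph X} {v₀ : X} (p : F.Walk v₀ v₀) (hp : p.IsCycle) (z : X)
    (hz : z ∈ p.support) : ∃ z' z'', z' ∈ p.support ∧ z'' ∈ p.support ∧ z' ≠ z'' ∧
      F.Adj z z' ∧ F.Adj z z'' := by
  classical
  have hc : (p.rotate z hz).IsCycle := hp.rotate hz
  refine ⟨(p.rotate z hz).snd, (p.rotate z hz).penultimate, ?_, ?_, hc.snd_ne_penultimate, ?_, ?_⟩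
  · rw [← p.mem_support_rotate_iff z hz]
    exact Walk.getVert_mem_support _ _
  · rw [← p.mem_support_rotate_iff z hz]
    exact Walk.getVert_mem_support _ _
  · exact Walk.adj_snd hc.not_nil
  · exact (Walk.adj_penultimate hc.not_nil).symm

/-- A graph with a position function such that every vertex has at most one neighbour which is
not above it is acyclic. -/
lemma acyclic_of_pos (F : SimpleGraph X) (pos : X → ℕ)
    (h : ∀ v w w', F.Adj v w → F.Adj v w' → pos w ≤ pos v → pos w' ≤ pos v → w = w') :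
    F.IsAcyclic := by
  classical
  intro v₀ p hp
  obtain ⟨z, hz, hmax⟩ := Finset.exists_max_image p.support.toFinset pos
    ⟨v₀, by simp⟩
  simp only [List.mem_toFinset] at hz hmax
  obtain ⟨z', z'', h1, h2, h3, h4, h5⟩ := cycle_nbrs p hp z hz
  exact h3 (h z z' z'' h4 h5 (hmax z' h1) (hmax z'' h2))

lemma ncard_le_one_of {S : Set X} (h : ∀ x ∈ S, ∀ y ∈ S, x = y) : S.ncard ≤ 1 := by
  rcases S.eq_empty_or_nonempty with h0 | ⟨x, hx⟩
  · rw [h0]; simp
  · have : S = {x} := by
      ext y
      simp only [Set.mem_singleton_iff]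
      exact ⟨fun hy => h y hy x hx, fun hy => hy ▸ hx⟩
    rw [this]; simp

/-- Degree at most two, from a position function. -/
lemma deg_le_two_of_pos [Finite X] (F : SimpleGraph X) (pos : X → ℕ) (v : X)
    (h : ∀ w w', F.Adj v w → F.Adj v w' → pos w ≤ pos v → pos w' ≤ pos v → w = w')
    (h' : ∀ w w', F.Adj v w → F.Adj v w' → pos v < pos w → pos v < pos w' → w = w') :
    (F.neighborSet v).ncard ≤ 2 := by
  have h1 : F.neighborSet v ⊆ {w | F.Adj v w ∧ pos w ≤ pos v} ∪ {w | F.Adj v w ∧ pos v < pos w} := by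
    intro w hw
    rcases le_or_gt (pos w) (pos v) with h2 | h2
    · exact Or.inl ⟨hw, h2⟩
    · exact Or.inr ⟨hw, h2⟩
  refine le_trans (Set.ncard_le_ncard h1 (Set.toFinite _)) (le_trans (Set.ncard_union_le _ _) ?_)
  have h2 : ({w | F.Adj v w ∧ pos w ≤ pos v} : Set X).ncard ≤ 1 :=
    ncard_le_one_of (fun x hx y hy => h x y hx.1 hy.1 hx.2 hy.2)
  have h3 : ({w | F.Adj v w ∧ pos v < pos w} : Set X).ncard ≤ 1 :=
    ncard_le_one_of (fun x hx y hy => h' x y hx.1 hy.1 hx.2 hy.2)
  omega

/-- A linear forest has no component with three vertices of degree at most one. -/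
lemma not_reachable_three [Finite X] (P : SimpleGraph X) (hP : IsLinearForest P) {z z' z'' : X}
    (h1 : (P.neighborSet z).ncard ≤ 1) (h2 : (P.neighborSet z').ncard ≤ 1)
    (h3 : (P.neighborSet z'').ncard ≤ 1) (hz1 : z ≠ z') (hz2 : z ≠ z'') (hz3 : z' ≠ z'') :
    ¬ P.Reachable z z' ∨ ¬ P.Reachable z z'' := by
  classical
  have := Fintype.ofFinite X
  by_contra hcon
  push Not at hcon
  have hs := slot_sum P hP (P.connectedComponentMk z)
  have hsub : ({z, z', z''} : Finset X) ⊆ Finset.univ.filter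
      (fun v : X => P.connectedComponentMk v = P.connectedComponentMk z) := by
    intro v hv
    simp only [Finset.mem_insert, Finset.mem_singleton] at hv
    simp only [Finset.mem_filter, Finset.mem_univ, true_and]
    rcases hv with rfl | rfl | rfl
    · rfl
    · exact (ConnectedComponent.sound hcon.1).symm
    · exact (ConnectedComponent.sound hcon.2).symm
  have hle := Finset.sum_le_sum_of_subset (f := fun v : X => 2 - (P.neighborSet v).ncard) hsub
  rw [hs] at hle
  rw [Finset.sum_insert (by simp [hz1, hz2]), Finset.sum_insert (by simp [hz3]),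
    Finset.sum_singleton] at hle
  omega

/-- Every graph on a finite vertex set has a maximal matching. -/
lemma exists_maximal_matching [Finite X] (Z : SimpleGraph X) : ∃ A : SimpleGraph X, A ≤ Z ∧
    (∀ v w w', A.Adj v w → A.Adj v w' → w = w') ∧
    (∀ u v, Z.Adj u v → (∃ w, A.Adj u w) ∨ (∃ w, A.Adj v w)) := by
  classical
  let 𝒜 : Set (SimpleGraph X) := {A | A ≤ Z ∧ ∀ v w w', A.Adj v w → A.Adj v w' → w = w'}
  have hfin : 𝒜.Finite := Set.toFinite _
  have hne : 𝒜.Nonempty := ⟨⊥, bot_le, by simp⟩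
  obtain ⟨A, hA⟩ := hfin.exists_maximal hne
  refine ⟨A, hA.prop.1, hA.prop.2, ?_⟩
  intro u v huv
  by_contra hcon
  push Not at hcon
  obtain ⟨hu, hv⟩ := hcon
  have hmem : A ⊔ edge u v ∈ 𝒜 := by
    refine ⟨sup_le hA.prop.1 ?_, ?_⟩
    · rw [edge_le_iff]
      exact Or.inr huv
    · intro a b b' h1 h2
      rw [sup_adj, edge_adj] at h1 h2
      rcases h1 with h1 | ⟨h1, _⟩
      · rcases h2 with h2 | ⟨h2, _⟩
        · exact hA.prop.2 a b b' h1 h2
        · rcases h2 with ⟨rfl, rfl⟩ | ⟨rfl, rfl⟩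
          · exact absurd h1 (hu _)
          · exact absurd h1 (hv _)
      · rcases h2 with h2 | ⟨h2, _⟩
        · rcases h1 with ⟨rfl, rfl⟩ | ⟨rfl, rfl⟩
          · exact absurd h2 (hu _)
          · exact absurd h2 (hv _)
        · rcases h1 with ⟨rfl, rfl⟩ | ⟨rfl, rfl⟩
          · rcases h2 with ⟨_, rfl⟩ | ⟨h3, h4⟩
            · rfl
            · exact absurd h3 huv.ne
          · rcases h2 with ⟨h3, h4⟩ | ⟨_, rfl⟩
            · exact absurd h3 huv.ne.symm
            · rfl
  have hle := hA.le_of_ge hmem le_sup_left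
  have : A.Adj u v := hle (by
    rw [sup_adj, edge_adj]
    exact Or.inr ⟨Or.inl ⟨rfl, rfl⟩, huv.ne⟩)
  exact hu v this

/-- Hosting: if `P` is a linear forest in which the vertices of `I` have degree at most one, and
`R` is a graph with all edges inside `I`, then there is a matching `C` in `R` which can be added
to `P` and which leaves no vertex with two neighbours in `R`, all three untouched by `C`. -/
lemma host [Finite X] (P R : SimpleGraph X) (hP : IsLinearForest P) (I : Set X)
    (hI : ∀ v ∈ I, (P.neighborSet v).ncard ≤ 1) (hR : ∀ u v, R.Adj u v → u ∈ I) :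
    ∃ C : SimpleGraph X, C ≤ R ∧ IsLinearForest (P ⊔ C) ∧
      ∀ z z' z'', R.Adj z z' → R.Adj z z'' → z' ≠ z'' → (∀ w, ¬ C.Adj z w) →
        (∀ w, ¬ C.Adj z' w) → (∀ w, ¬ C.Adj z'' w) → False := by
  classical
  let 𝒞 : Set (SimpleGraph X) := {C | C ≤ R ∧ (∀ v w w', C.Adj v w → C.Adj v w' → w = w') ∧
    (P ⊔ C).IsAcyclic}
  have hfin : 𝒞.Finite := Set.toFinite _
  have hne : 𝒞.Nonempty := ⟨⊥, bot_le, by simp, by rw [sup_bot_eq]; exact hP.1⟩
  obtain ⟨C, hC⟩ := hfin.exists_maximal hne
  obtain ⟨hCR, hC1, hCac⟩ := hC.prop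
  have hlf : IsLinearForest (P ⊔ C) := by
    refine ⟨hCac, fun v => ?_⟩
    have hsub : (P ⊔ C).neighborSet v ⊆ P.neighborSet v ∪ C.neighborSet v := by
      intro w hw
      exact hw
    have hle := le_trans (Set.ncard_le_ncard hsub (Set.toFinite _)) (Set.ncard_union_le _ _)
    by_cases hv : v ∈ I
    · have h1 := hI v hv
      have h2 : (C.neighborSet v).ncard ≤ 1 := ncard_le_one_of (fun x hx y hy => hC1 v x y hx hy)
      omega
    · have h1 := hP.2 v
      have h2 : C.neighborSet v = ∅ := by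
        ext w
        simp only [mem_neighborSet, Set.mem_empty_iff_false, iff_false]
        intro hw
        exact hv (hR v w (hCR hw))
      rw [h2, Set.ncard_empty] at hle
      omega
  refine ⟨C, hCR, hlf, ?_⟩
  intro z z' z'' h1 h2 h3 hz hz' hz''
  have hnb : ∀ x, (∀ w, ¬ C.Adj x w) → x ∈ I → ((P ⊔ C).neighborSet x).ncard ≤ 1 := by
    intro x hx hxI
    have : (P ⊔ C).neighborSet x = P.neighborSet x := by
      ext w
      simp [hx w]
    rw [this]
    exact hI x hxI
  have key : ∀ y, R.Adj z y → (∀ w, ¬ C.Adj y w) → (P ⊔ C).Reachable z y := by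
    intro y hzy hy
    by_contra hnr
    have hmem : C ⊔ edge z y ∈ 𝒞 := by
      refine ⟨sup_le hCR ?_, ?_, ?_⟩
      · rw [edge_le_iff]
        exact Or.inr hzy
      · intro a b b' k1 k2
        rw [sup_adj, edge_adj] at k1 k2
        rcases k1 with k1 | ⟨k1, _⟩
        · rcases k2 with k2 | ⟨k2, _⟩
          · exact hC1 a b b' k1 k2
          · rcases k2 with ⟨rfl, rfl⟩ | ⟨rfl, rfl⟩
            · exact absurd k1 (hz _)
            · exact absurd k1 (hy _)
        · rcases k2 with k2 | ⟨k2, _⟩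
          · rcases k1 with ⟨rfl, rfl⟩ | ⟨rfl, rfl⟩
            · exact absurd k2 (hz _)
            · exact absurd k2 (hy _)
          · rcases k1 with ⟨rfl, rfl⟩ | ⟨rfl, rfl⟩
            · rcases k2 with ⟨_, rfl⟩ | ⟨k3, k4⟩
              · rfl
              · exact absurd k3 hzy.ne
            · rcases k2 with ⟨k3, k4⟩ | ⟨_, rfl⟩
              · exact absurd k3 hzy.ne.symm
              · rfl
      · rw [← sup_assoc]
        exact hCac.sup_edge_of_not_reachable hnr
    have hle := hC.le_of_ge hmem le_sup_left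
    have : C.Adj z y := hle (by
      rw [sup_adj, edge_adj]
      exact Or.inr ⟨Or.inl ⟨rfl, rfl⟩, hzy.ne⟩)
    exact hz y this
  rcases not_reachable_three (P ⊔ C) hlf (hnb z hz (hR z z' h1)) (hnb z' hz' (hR z' z h1.symm))
    (hnb z'' hz'' (hR z'' z h2.symm)) h1.ne h2.ne h3 with h | h
  · exact h (key z' h1 hz')
  · exact h (key z'' h2 hz'')

end Pool.Agent.Helper75_LA
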