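import Mathlib
import Pool.Agent.Helper14_LA.TwoColor

set_option autoImplicit false

namespace Pool.Agent.Helper75_LA

open Finset

/-- Pair up the elements of the fibres of `p` in `E`, leaving at most one element per fibre. -/
lemma exists_pairing {S P : Type*} [DecidableEq S] (p : S → P) (E : Finset S) :
    ∃ α : S → S, Function.Involutive α ∧ (∀ x, x ∉ E → α x = x) ∧ (∀ x ∈ E, α x ∈ E) ∧
      (∀ x, p (α x) = p x) ∧
      (∀ x ∈ E, ∀ y ∈ E, p x = p y → α x = x → α y = y → x = y) := by
  classical
  induction E using Finset.induction_on with
  | empty => exact ⟨id, fun _ => rfl, by simp, by simp, by simp, by simp⟩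
  | insert a s ha ih =>
    obtain ⟨α, h1, h2, h3, h4, h5⟩ := ih
    have hαa : α a = a := h2 a ha
    by_cases hex : ∃ y ∈ s, p y = p a ∧ α y = y
    · obtain ⟨y, hy, hpy, hαy⟩ := hex
      have hne : a ≠ y := fun h => ha (h ▸ hy)
      refine ⟨fun x => if x = a then y else if x = y then a else α x, ?_, ?_, ?_, ?_, ?_⟩
      · intro x
        by_cases hxa : x = a
        · subst hxa
          simp [hne.symm]
        · by_cases hxy : x = y
          · subst hxy
            simp [hne.symm]
          · have h6 : α x ≠ a := fun h => hxa (by rw [← h1 x, h, hαa])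
            have h7 : α x ≠ y := fun h => hxy (by rw [← h1 x, h, hαy])
            simp [hxa, hxy, h6, h7, h1 x]
      · intro x hx
        have hxa : x ≠ a := fun h => hx (by simp [h])
        have hxy : x ≠ y := fun h => hx (by simp [h, hy])
        have hxs : x ∉ s := fun h => hx (by simp [h])
        simp [hxa, hxy, h2 x hxs]
      · intro x hx
        by_cases hxa : x = a
        · simp [hxa, hy]
        · by_cases hxy : x = y
          · simp [hxy, hne.symm]
          · have hxs : x ∈ s := by
              rcases Finset.mem_insert.1 hx with h | h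
              · exact absurd h hxa
              · exact h
            simp [hxa, hxy, h3 x hxs]
      · intro x
        by_cases hxa : x = a
        · simp [hxa, hpy]
        · by_cases hxy : x = y
          · simp [hxy, hne.symm, hpy]
          · simp [hxa, hxy, h4 x]
      · intro x hx z hz hpxz hfx hfz
        have key : ∀ w, (if w = a then y else if w = y then a else α w) = w →
            w ≠ a ∧ w ≠ y ∧ α w = w := by
          intro w hw
          by_cases hwa : w = a
          · subst hwa
            simp at hw
            exact absurd hw.symm hne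
          · by_cases hwy : w = y
            · subst hwy
              simp [hwa] at hw
              exact absurd hw hne
            · simp [hwa, hwy] at hw
              exact ⟨hwa, hwy, hw⟩
        obtain ⟨hxa, hxy, hx'⟩ := key x hfx
        obtain ⟨hza, hzy, hz'⟩ := key z hfz
        have hxs : x ∈ s := by
          rcases Finset.mem_insert.1 hx with h | h
          · exact absurd h hxa
          · exact h
        have hzs : z ∈ s := by
          rcases Finset.mem_insert.1 hz with h | h
          · exact absurd h hza
          · exact h
        exact h5 x hxs z hzs hpxz hx' hz'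
    · push Not at hex
      refine ⟨α, h1, ?_, ?_, h4, ?_⟩
      · intro x hx
        exact h2 x (fun h => hx (by simp [h]))
      · intro x hx
        rcases Finset.mem_insert.1 hx with h | h
        · rw [h, hαa]; simp
        · exact Finset.mem_insert_of_mem (h3 x h)
      · intro x hx y hy hpxy hfx hfy
        rcases Finset.mem_insert.1 hx with h | h
        · rcases Finset.mem_insert.1 hy with h' | h'
          · rw [h, h']
          · exact absurd hfy (hex y h' (by rw [← hpxy, h]))
        · rcases Finset.mem_insert.1 hy with h' | h'
          · exact absurd hfx (hex x h (by rw [hpxy, h']))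
          · exact h5 x h y h' hpxy hfx hfy

/-- Two involutions admit a `2`-colouring that separates the two points of every orbit of size
two of each of them. -/
lemma two_color_gen {S : Type*} (σ τ : S → S) (hσ : Function.Involutive σ)
    (hτ : Function.Involutive τ) :
    ∃ f : S → Bool, (∀ x, σ x ≠ x → f (σ x) ≠ f x) ∧ (∀ x, τ x ≠ x → f (τ x) ≠ f x) := by
  classical
  have aux : ∀ ρ : S → S, Function.Involutive ρ →
      Function.Involutive
        (fun q : S × Bool => if ρ q.1 = q.1 then (q.1, !q.2) else (ρ q.1, q.2)) := by
    rintro ρ hρ ⟨x, b⟩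
    by_cases h : ρ x = x
    · simp [h]
    · have h2 : ¬ x = ρ x := fun h' => h h'.symm
      simp [h, hρ x, h2]
  have aux2 : ∀ ρ : S → S, ∀ q : S × Bool,
      (if ρ q.1 = q.1 then (q.1, !q.2) else (ρ q.1, q.2)) ≠ q := by
    rintro ρ ⟨x, b⟩ h
    by_cases h3 : ρ x = x
    · simp [h3] at h
    · simp [h3] at h
  obtain ⟨f, hf1, hf2⟩ := Pool.Agent.Helper14_LA.two_color_aux
    (Function.Involutive.toPerm _ (aux σ hσ)) (Function.Involutive.toPerm _ (aux τ hτ))
    (fun x => aux σ hσ x) (fun x => aux τ hτ x) (fun x => aux2 σ x) (fun x => aux2 τ x)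
  refine ⟨fun x => f (x, false), fun x hx => ?_, fun x hx => ?_⟩
  · have := hf1 (x, false)
    have h2 : (Function.Involutive.toPerm _ (aux σ hσ)) (x, false) = (σ x, false) := by
      show (if σ x = x then (x, !false) else (σ x, false)) = _
      simp [hx]
    rw [h2] at this
    exact this
  · have := hf2 (x, false)
    have h2 : (Function.Involutive.toPerm _ (aux τ hτ)) (x, false) = (τ x, false) := by
      show (if τ x = x then (x, !false) else (τ x, false)) = _
      simp [hx]
    rw [h2] at this
    exact this

/-- A colouring alternating under a pairing is balanced on every fibre. -/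
lemma balanced_of_pairing {S P : Type*} [DecidableEq S] [DecidableEq P] (p : S → P)
    (E : Finset S) (α : S → S) (hα : Function.Involutive α) (hE : ∀ x ∈ E, α x ∈ E)
    (hp : ∀ x, p (α x) = p x)
    (hfix : ∀ x ∈ E, ∀ y ∈ E, p x = p y → α x = x → α y = y → x = y)
    (f : S → Bool) (hf : ∀ x, α x ≠ x → f (α x) ≠ f x) (a : P) (b : Bool) :
    (E.filter (fun x => p x = a ∧ f x = b)).card
      ≤ (E.filter (fun x => p x = a ∧ f x = !b)).card + 1 := by
  classical
  set T := E.filter (fun x => p x = a ∧ f x = b) with hT
  have h1 : (T.filter (fun x => α x ≠ x)).card ≤ (E.filter (fun x => p x = a ∧ f x = !b)).card := by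
    refine Finset.card_le_card_of_injOn α ?_ (fun x _ y _ h => hα.injective h)
    intro x hx
    simp only [hT, Finset.coe_filter, Finset.mem_filter, Set.mem_setOf_eq] at hx ⊢
    obtain ⟨⟨hxE, hxa, hxb⟩, hx2⟩ := hx
    refine ⟨hE x hxE, by rw [hp, hxa], ?_⟩
    have := hf x hx2
    rw [hxb] at this
    cases b <;> simpa using this
  have h2 : (T.filter (fun x => ¬ α x ≠ x)).card ≤ 1 := by
    rw [Finset.card_le_one]
    intro x hx y hy
    simp only [hT, Finset.mem_filter, not_not] at hx hy
    exact hfix x hx.1.1 y hy.1.1 (by rw [hx.1.2.1, hy.1.2.1]) hx.2 hy.2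
  have h3 := Finset.card_filter_add_card_filter_not (s := T) (fun x => α x ≠ x)
  omega

/-- Balanced splitting: a family `E` of edges with end point maps `p`, `q` (a bipartite
multigraph) can be coloured with two colours such that at every vertex the numbers of edges of
the two colours differ by at most one. -/
lemma balanced_split {S P Q : Type*} [DecidableEq P] [DecidableEq Q] (p : S → P) (q : S → Q)
    (E : Finset S) :
    ∃ f : S → Bool,
      (∀ (a : P) (b : Bool), (E.filter (fun x => p x = a ∧ f x = b)).card
        ≤ (E.filter (fun x => p x = a ∧ f x = !b)).card + 1) ∧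
      (∀ (a : Q) (b : Bool), (E.filter (fun x => q x = a ∧ f x = b)).card
        ≤ (E.filter (fun x => q x = a ∧ f x = !b)).card + 1) := by
  classical
  obtain ⟨α, a1, _, a3, a4, a5⟩ := exists_pairing p E
  obtain ⟨β, b1, _, b3, b4, b5⟩ := exists_pairing q E
  obtain ⟨f, hf1, hf2⟩ := two_color_gen α β a1 b1
  exact ⟨f, fun a b => balanced_of_pairing p E α a1 a3 a4 a5 f hf1 a b,
    fun a b => balanced_of_pairing q E β b1 b3 b4 b5 f hf2 a b⟩

/-- In a balanced splitting each colour takes at most half of every fibre (rounded up). -/
lemma half_of_balanced {S P : Type*} [DecidableEq P] (p : S → P) (E : Finset S) (f : S → Bool)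
    (h : ∀ (a : P) (b : Bool), (E.filter (fun x => p x = a ∧ f x = b)).card
        ≤ (E.filter (fun x => p x = a ∧ f x = !b)).card + 1) (a : P) (b : Bool) :
    2 * (E.filter (fun x => p x = a ∧ f x = b)).card ≤ (E.filter (fun x => p x = a)).card + 1 := by
  classical
  have h1 := h a b
  have h2 : (E.filter (fun x => p x = a ∧ f x = b)).card
      + (E.filter (fun x => p x = a ∧ f x = !b)).card = (E.filter (fun x => p x = a)).card := by
    have h3 := Finset.card_filter_add_card_filter_not (s := E.filter (fun x => p x = a))
      (fun x => f x = b)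
    rw [← h3, Finset.filter_filter, Finset.filter_filter]
    congr 2
    ext x
    simp only [Finset.mem_filter]
    constructor
    · rintro ⟨h4, h5, h6⟩
      refine ⟨h4, h5, ?_⟩
      rw [h6]
      cases b <;> simp
    · rintro ⟨h4, h5, h6⟩
      refine ⟨h4, h5, ?_⟩
      cases b <;> simpa using h6
  omega

end Pool.Agent.Helper75_LA
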