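import Mathlib

set_option autoImplicit false

namespace Pool.Agent.Helper75_LA

/-- `a - r` modulo `m` (for `a, r < m`). -/
def idx (m r a : ℕ) : ℕ := if r ≤ a then a - r else a + m - r

/-- Position of the residue `i` in the zigzag `0, 1, -1, 2, -2, ...` modulo `m`. -/
def zz (m i : ℕ) : ℕ := if 2 * i ≤ m then 2 * i - 1 else 2 * (m - i)

/-- Position of the class `a` in the `r`-th zigzag path. -/
def pos (m r a : ℕ) : ℕ := zz m (idx m r a)

/-- `a + b` modulo `m` (for `a, b < m`). -/
def sm (m a b : ℕ) : ℕ := if a + b < m then a + b else a + b - m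

/-- The first zigzag path in which `a` and `b` are consecutive. -/
def r1 (m a b : ℕ) : ℕ := sm m a b / 2

/-- The second zigzag path in which `a` and `b` are consecutive. -/
def r2 (m a b : ℕ) : ℕ := (sm m a b + m) / 2

/-- The index of the zigzag path in which the class `i` is last. -/
def rl (m i : ℕ) : ℕ := if (m + 1) / 2 ≤ i then i - (m + 1) / 2 else i + m - (m + 1) / 2

lemma sm_comm (m a b : ℕ) : sm m a b = sm m b a := by
  unfold sm
  rw [add_comm a b]

lemma r1_comm (m a b : ℕ) : r1 m a b = r1 m b a := by rw [r1, r1, sm_comm]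

lemma r2_comm (m a b : ℕ) : r2 m a b = r2 m b a := by rw [r2, r2, sm_comm]

lemma r1_lt {m a b : ℕ} (ha : a < m) (hb : b < m) : r1 m a b < m := by
  unfold r1 sm
  split_ifs <;> omega

lemma r2_lt {m a b : ℕ} (ha : a < m) (hb : b < m) : r2 m a b < m := by
  unfold r2 sm
  split_ifs <;> omega

lemma r1_ne_r2 {m a b : ℕ} (ha : a < m) (hb : b < m) (hab : a ≠ b) : r1 m a b ≠ r2 m a b := by
  unfold r1 r2 sm
  split_ifs <;> omega

lemma pos_adj {m r a b : ℕ} (ha : a < m) (hb : b < m) (hab : a ≠ b)
    (h : r = r1 m a b ∨ r = r2 m a b) : pos m r a = pos m r b + 1 ∨ pos m r b = pos m r a + 1 := by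
  unfold r1 r2 sm at h
  unfold pos zz idx
  split_ifs at h ⊢ <;> omega

lemma pos_inj {m r a b : ℕ} (ha : a < m) (hb : b < m) (hr : r < m)
    (h : pos m r a = pos m r b) : a = b := by
  unfold pos zz idx at h
  split_ifs at h <;> omega

lemma pos_self (m r : ℕ) : pos m r r = 0 := by
  unfold pos zz idx
  split_ifs <;> omega

lemma pos_lt {m r a : ℕ} (ha : a < m) (hr : r < m) : pos m r a < m := by
  unfold pos zz idx
  split_ifs <;> omega

lemma rl_lt {m i : ℕ} (hi : i < m) : rl m i < m := by
  unfold rl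
  split_ifs <;> omega

lemma pos_rl {m i : ℕ} (hi : i < m) : pos m (rl m i) i + 1 = m := by
  unfold pos zz idx rl
  split_ifs <;> omega

lemma rl_inj {m i j : ℕ} (hi : i < m) (hj : j < m) (h : rl m i = rl m j) : i = j := by
  unfold rl at h
  split_ifs at h <;> omega

end Pool.Agent.Helper75_LA
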