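import Mathlib
import Pool.Agent.Helper75_LA.Split
import Pool.Agent.Helper75_LA.Zigzag
import Pool.Agent.Helper75_LA.Host

set_option autoImplicit false

open SimpleGraph Pool.Agent.Helper14_LA

namespace Pool.Agent.Helper75_LA

variable {X : Type*}

/-- Split the edges between different classes into two balanced halves. -/
lemma split_graph [Finite X] (H : SimpleGraph X) (c : X → ℕ) :
    ∃ q : X → X → Bool, (∀ u v, q u v = q v u) ∧
      ∀ (x : X) (i : ℕ) (β : Bool), i ≠ c x →
        2 * ({y | H.Adj x y ∧ c y = i ∧ q x y = β} : Set X).ncard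
          ≤ ({y | H.Adj x y ∧ c y = i} : Set X).ncard + 1 := by
  classical
  have := Fintype.ofFinite X
  let E : Finset (X × X) := Finset.univ.filter (fun z => H.Adj z.1 z.2 ∧ c z.1 < c z.2)
  obtain ⟨f, hf1, hf2⟩ := balanced_split (fun z : X × X => (z.1, c z.2))
    (fun z : X × X => (z.2, c z.1)) E
  let q : X → X → Bool := fun u v =>
    if c u < c v then f (u, v) else if c v < c u then f (v, u) else false
  refine ⟨q, ?_, ?_⟩
  · intro u v
    simp only [q]
    rcases lt_trichotomy (c u) (c v) with h | h | h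
    · simp [h, not_lt_of_gt h]
    · simp [h]
    · simp [h, not_lt_of_gt h]
  · intro x i β hi
    rcases lt_or_gt_of_ne hi with h | h
    · -- i < c x
      have key := half_of_balanced (fun z : X × X => (z.2, c z.1)) E f hf2 (x, i) β
      have e1 : ({y | H.Adj x y ∧ c y = i ∧ q x y = β} : Set X).ncard
          = (E.filter (fun z => ((z.2, c z.1) : X × ℕ) = (x, i) ∧ f z = β)).card := by
        rw [← Set.ncard_coe_finset]
        rw [← Set.ncard_image_of_injective (f := fun y : X => (y, x))
          ({y | H.Adj x y ∧ c y = i ∧ q x y = β} : Set X) (fun a b hab => by simpa using hab)]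
        congr 1
        ext ⟨a, b⟩
        simp only [Set.mem_image, Prod.mk.injEq, Finset.coe_filter, E, Finset.mem_filter,
          Finset.mem_univ, true_and]
        constructor
        · rintro ⟨y, ⟨h1, h2, h3⟩, rfl, rfl⟩
          have h4 : ¬ c x < c y := by omega
          have h5 : c y < c x := by omega
          simp only [q, if_neg h4, if_pos h5] at h3
          exact ⟨⟨h1.symm, h5⟩, ⟨rfl, h2⟩, h3⟩
        · rintro ⟨⟨h1, h2⟩, ⟨h3, h4⟩, h5⟩
          refine ⟨a, ⟨?_, h4, ?_⟩, rfl, h3.symm⟩
          · rw [← h3]; exact h1.symm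
          · subst h3
            have h2' : c a < c b := h2
            have h6 : ¬ c b < c a := by omega
            simp only [q, if_neg h6, if_pos h2']
            exact h5
      have e2 : ({y | H.Adj x y ∧ c y = i} : Set X).ncard
          = (E.filter (fun z => ((z.2, c z.1) : X × ℕ) = (x, i))).card := by
        rw [← Set.ncard_coe_finset]
        rw [← Set.ncard_image_of_injective (f := fun y : X => (y, x))
          ({y | H.Adj x y ∧ c y = i} : Set X) (fun a b hab => by simpa using hab)]
        congr 1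
        ext ⟨a, b⟩
        simp only [Set.mem_image, Prod.mk.injEq, Finset.coe_filter, E, Finset.mem_filter,
          Finset.mem_univ, true_and]
        constructor
        · rintro ⟨y, ⟨h1, h2⟩, rfl, rfl⟩
          exact ⟨⟨h1.symm, by show c y < c x; omega⟩, ⟨rfl, h2⟩⟩
        · rintro ⟨⟨h1, h2⟩, ⟨h3, h4⟩⟩
          refine ⟨a, ⟨?_, h4⟩, rfl, h3.symm⟩
          rw [← h3]; exact h1.symm
      rw [e1, e2]
      exact key
    · have key := half_of_balanced (fun z : X × X => (z.1, c z.2)) E f hf1 (x, i) β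
      have e1 : ({y | H.Adj x y ∧ c y = i ∧ q x y = β} : Set X).ncard
          = (E.filter (fun z => ((z.1, c z.2) : X × ℕ) = (x, i) ∧ f z = β)).card := by
        rw [← Set.ncard_coe_finset]
        rw [← Set.ncard_image_of_injective (f := fun y : X => (x, y))
          ({y | H.Adj x y ∧ c y = i ∧ q x y = β} : Set X) (fun a b hab => by simpa using hab)]
        congr 1
        ext ⟨a, b⟩
        simp only [Set.mem_image, Prod.mk.injEq, Finset.coe_filter, E, Finset.mem_filter,
          Finset.mem_univ, true_and]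
        constructor
        · rintro ⟨y, ⟨h1, h2, h3⟩, rfl, rfl⟩
          have h4 : c x < c y := by omega
          simp only [q, if_pos h4] at h3
          exact ⟨⟨h1, h4⟩, ⟨rfl, h2⟩, h3⟩
        · rintro ⟨⟨h1, h2⟩, ⟨h3, h4⟩, h5⟩
          refine ⟨b, ⟨?_, h4, ?_⟩, h3.symm, rfl⟩
          · rw [← h3]; exact h1
          · subst h3
            simp only [q, if_pos h2]
            exact h5
      have e2 : ({y | H.Adj x y ∧ c y = i} : Set X).ncard
          = (E.filter (fun z => ((z.1, c z.2) : X × ℕ) = (x, i))).card := by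
        rw [← Set.ncard_coe_finset]
        rw [← Set.ncard_image_of_injective (f := fun y : X => (x, y))
          ({y | H.Adj x y ∧ c y = i} : Set X) (fun a b hab => by simpa using hab)]
        congr 1
        ext ⟨a, b⟩
        simp only [Set.mem_image, Prod.mk.injEq, Finset.coe_filter, E, Finset.mem_filter,
          Finset.mem_univ, true_and]
        constructor
        · rintro ⟨y, ⟨h1, h2⟩, rfl, rfl⟩
          exact ⟨⟨h1, by show c x < c y; omega⟩, ⟨rfl, h2⟩⟩
        · rintro ⟨⟨h1, h2⟩, ⟨h3, h4⟩⟩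
          refine ⟨b, ⟨?_, h4⟩, h3.symm, rfl⟩
          rw [← h3]; exact h1
      rw [e1, e2]
      exact key

/-- The column forest: edges of `H` between the classes which are consecutive in the `r`-th zigzag
path, one half of the edges for each of the two paths. -/
def col (m : ℕ) (H : SimpleGraph X) (c : X → ℕ) (q : X → X → Bool) (hq : ∀ u v, q u v = q v u)
    (r : ℕ) : SimpleGraph X where
  Adj x y := H.Adj x y ∧ c x < m ∧ c y < m ∧ c x ≠ c y ∧
    ((r = r1 m (c x) (c y) ∧ q x y = true) ∨ (r = r2 m (c x) (c y) ∧ q x y = false))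
  symm := ⟨by
    rintro x y ⟨h1, h2, h3, h4, h5⟩
    refine ⟨h1.symm, h3, h2, h4.symm, ?_⟩
    rw [r1_comm, r2_comm, hq]
    exact h5⟩
  loopless := ⟨fun x h => h.2.2.2.1 rfl⟩

section col

variable {m : ℕ} {H : SimpleGraph X} {c : X → ℕ} {q : X → X → Bool} {hq : ∀ u v, q u v = q v u}
  {r : ℕ}

lemma col_le : col m H c q hq r ≤ H := fun _ _ h => h.1

lemma col_pos {x y : X} (h : (col m H c q hq r).Adj x y) :
    pos m r (c x) = pos m r (c y) + 1 ∨ pos m r (c y) = pos m r (c x) + 1 := by
  obtain ⟨_, h2, h3, h4, h5⟩ := h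
  refine pos_adj h2 h3 h4 ?_
  rcases h5 with h5 | h5
  · exact Or.inl h5.1
  · exact Or.inr h5.1

/-- Two neighbours in the same class coincide. -/
lemma col_unique [Finite X]
    (hone : ∀ x i β, i < m → i ≠ c x →
      ({y | H.Adj x y ∧ c y = i ∧ q x y = β} : Set X).ncard ≤ 1)
    {x y y' : X} (h : (col m H c q hq r).Adj x y) (h' : (col m H c q hq r).Adj x y')
    (hc : c y = c y') : y = y' := by
  obtain ⟨h1, h2, h3, h4, h5⟩ := h
  obtain ⟨h1', h2', h3', h4', h5'⟩ := h'
  have hne := r1_ne_r2 h2 h3 h4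
  have hqq : q x y = q x y' := by
    rw [← hc] at h5'
    rcases h5 with h5 | h5
    · rcases h5' with h6 | h6
      · rw [h5.2, h6.2]
      · exact absurd (h5.1.symm.trans h6.1) hne
    · rcases h5' with h6 | h6
      · exact absurd (h6.1.symm.trans h5.1) hne
      · rw [h5.2, h6.2]
  have := hone x (c y) (q x y) h3 (Ne.symm h4)
  rw [Set.ncard_le_one (Set.toFinite _)] at this
  exact this y ⟨h1, rfl, rfl⟩ y' ⟨h1', hc.symm, hqq.symm⟩

lemma col_lower [Finite X] (hr : r < m)
    (hone : ∀ x i β, i < m → i ≠ c x →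
      ({y | H.Adj x y ∧ c y = i ∧ q x y = β} : Set X).ncard ≤ 1)
    {x y y' : X} (h : (col m H c q hq r).Adj x y) (h' : (col m H c q hq r).Adj x y')
    (hp : pos m r (c y) ≤ pos m r (c x)) (hp' : pos m r (c y') ≤ pos m r (c x)) : y = y' := by
  refine col_unique hone h h' ?_
  have h1 := col_pos h
  have h2 := col_pos h'
  exact pos_inj h.2.2.1 h'.2.2.1 hr (by omega)

lemma col_upper [Finite X] (hr : r < m)
    (hone : ∀ x i β, i < m → i ≠ c x →
      ({y | H.Adj x y ∧ c y = i ∧ q x y = β} : Set X).ncard ≤ 1)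
    {x y y' : X} (h : (col m H c q hq r).Adj x y) (h' : (col m H c q hq r).Adj x y')
    (hp : pos m r (c x) < pos m r (c y)) (hp' : pos m r (c x) < pos m r (c y')) : y = y' := by
  refine col_unique hone h h' ?_
  have h1 := col_pos h
  have h2 := col_pos h'
  exact pos_inj h.2.2.1 h'.2.2.1 hr (by omega)

end col

lemma coveredBy_of {ι : Type*} [Fintype ι] (H : SimpleGraph X) (F : ι → SimpleGraph X)
    (hF : ∀ i, IsLinearForest (F i)) (hle : ∀ i, F i ≤ H)
    (hcov : ∀ x y, H.Adj x y → ∃ i, (F i).Adj x y) : CoveredBy H (Fintype.card ι) := by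
  refine ⟨fun k => F ((Fintype.equivFin ι).symm k), fun k => hF _, ?_⟩
  ext x y
  rw [iSup_adj]
  constructor
  · rintro ⟨k, hk⟩
    exact hle _ hk
  · intro h
    obtain ⟨i, hi⟩ := hcov x y h
    refine ⟨Fintype.equivFin ι i, ?_⟩
    rw [Equiv.symm_apply_apply]
    exact hi

/-- The edges of `R` inside the class `i`. -/
def inside (R : SimpleGraph X) (c : X → ℕ) (i : ℕ) : SimpleGraph X where
  Adj x y := R.Adj x y ∧ c x = i ∧ c y = i
  symm := ⟨fun _ _ h => ⟨h.1.symm, h.2.2, h.2.1⟩⟩
  loopless := ⟨fun _ h => h.1.ne rfl⟩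

lemma inside_le (R : SimpleGraph X) (c : X → ℕ) (i : ℕ) : inside R c i ≤ R := fun _ _ h => h.1

end Pool.Agent.Helper75_LA
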