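import Mathlib
import Pool.Agent.Helper75_LA.Columns

set_option autoImplicit false

open SimpleGraph Pool.Agent.Helper14_LA

namespace Pool.Agent.Helper75_LA

variable {X : Type*}

lemma ncard_neighborSet_le_one [Finite X] {F : SimpleGraph X} {v : X}
    (h : ∀ w w', F.Adj v w → F.Adj v w' → w = w') : (F.neighborSet v).ncard ≤ 1 :=
  ncard_le_one_of (fun x hx y hy => h x y hx hy)

/-- Two distinct neighbours of a vertex of degree at most two are all of its neighbours. -/
lemma eq_or_eq_of_deg_le_two [Finite X] {Z : SimpleGraph X} {z a b w : X}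
    (hZ : (Z.neighborSet z).ncard ≤ 2) (ha : Z.Adj z a) (hb : Z.Adj z b) (hab : a ≠ b)
    (hw : Z.Adj z w) : w = a ∨ w = b := by
  by_contra hcon
  push Not at hcon
  have hsub : ({w, a, b} : Set X) ⊆ Z.neighborSet z := by
    rintro v (rfl | rfl | rfl)
    · exact hw
    · exact ha
    · exact hb
  have h1 := Set.ncard_le_ncard hsub (Set.toFinite _)
  have h2 : ({w, a, b} : Set X).ncard = 3 := by
    rw [Set.ncard_eq_three]
    exact ⟨w, a, b, hcon.1, hcon.2, hab, rfl⟩
  omega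

/-- Hosting, simultaneously for all classes. -/
lemma host_all [Finite X] {m : ℕ} (c : X → ℕ) (P : ℕ → SimpleGraph X)
    (hP : ∀ r, r < m → IsLinearForest (P r))
    (hlast : ∀ v, c v < m → ((P (rl m (c v))).neighborSet v).ncard ≤ 1)
    (R : SimpleGraph X) (hR : ∀ u v, R.Adj u v → c u = c v) (hRm : ∀ u v, R.Adj u v → c u < m) :
    ∃ C : ℕ → SimpleGraph X, (∀ i, C i ≤ inside R c i) ∧
      (∀ i, i < m → IsLinearForest (P (rl m i) ⊔ C i)) ∧
      ∀ z z' z'', R.Adj z z' → R.Adj z z'' → z' ≠ z'' → (∀ w, ¬ (C (c z)).Adj z w) →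
        (∀ w, ¬ (C (c z)).Adj z' w) → (∀ w, ¬ (C (c z)).Adj z'' w) → False := by
  classical
  have key : ∀ i, ∃ C : SimpleGraph X, C ≤ inside R c i ∧
      (i < m → IsLinearForest (P (rl m i) ⊔ C)) ∧
      (i < m → ∀ z z' z'', (inside R c i).Adj z z' → (inside R c i).Adj z z'' → z' ≠ z'' →
        (∀ w, ¬ C.Adj z w) → (∀ w, ¬ C.Adj z' w) → (∀ w, ¬ C.Adj z'' w) → False) := by
    intro i
    by_cases hi : i < m
    · obtain ⟨C, h1, h2, h3⟩ := host (P (rl m i)) (inside R c i) (hP _ (rl_lt hi)) {v | c v = i}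
        (by
          intro v hv
          have hv' : c v = i := hv
          have := hlast v (by rw [hv']; exact hi)
          rwa [hv'] at this)
        (fun u v h => h.2.1)
      exact ⟨C, h1, fun _ => h2, fun _ => h3⟩
    · exact ⟨⊥, bot_le, fun h => absurd h hi, fun h => absurd h hi⟩
  choose C h1 h2 h3 using key
  refine ⟨C, h1, h2, ?_⟩
  intro z z' z'' k1 k2 k3 k4 k5 k6
  exact h3 (c z) (hRm z z' k1) z z' z'' ⟨k1, rfl, (hR z z' k1).symm⟩ ⟨k2, rfl, (hR z z'' k2).symm⟩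
    k3 k4 k5 k6

/-- What is left of `R` after removing the hosted edges. -/
def rem (R : SimpleGraph X) (c : X → ℕ) (C : ℕ → SimpleGraph X)
    (hR : ∀ u v, R.Adj u v → c u = c v) : SimpleGraph X where
  Adj x y := R.Adj x y ∧ ¬ (C (c x)).Adj x y
  symm := ⟨by
    rintro x y ⟨h1, h2⟩
    refine ⟨h1.symm, ?_⟩
    rw [← hR x y h1]
    exact fun h => h2 h.symm⟩
  loopless := ⟨fun _ h => h.1.ne rfl⟩

/-- If `R` has maximum degree two, then what is left of it is a linear forest. -/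
lemma rem_isLinearForest [Finite X] (R : SimpleGraph X) (c : X → ℕ) (C : ℕ → SimpleGraph X)
    (hR : ∀ u v, R.Adj u v → c u = c v) (hdeg : ∀ v, (R.neighborSet v).ncard ≤ 2)
    (hCR : ∀ i, C i ≤ inside R c i)
    (hC : ∀ z z' z'', R.Adj z z' → R.Adj z z'' → z' ≠ z'' → (∀ w, ¬ (C (c z)).Adj z w) →
        (∀ w, ¬ (C (c z)).Adj z' w) → (∀ w, ¬ (C (c z)).Adj z'' w) → False) :
    IsLinearForest (rem R c C hR) := by
  refine ⟨?_, fun v => ?_⟩
  · intro v₀ p hp
    have hz : v₀ ∈ p.support := by simp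
    obtain ⟨z', z'', h1, h2, h3, h4, h5⟩ := cycle_nbrs p hp v₀ hz
    have key : ∀ x ∈ p.support, ∀ w, ¬ (C (c x)).Adj x w := by
      intro x hx w hw
      obtain ⟨x', x'', k1, k2, k3, k4, k5⟩ := cycle_nbrs p hp x hx
      have hRw : R.Adj x w := (hCR _ hw).1
      rcases eq_or_eq_of_deg_le_two (hdeg x) k4.1 k5.1 k3 hRw with rfl | rfl
      · exact k4.2 hw
      · exact k5.2 hw
    refine hC v₀ z' z'' h4.1 h5.1 h3 (key v₀ hz) ?_ ?_
    · rw [hR _ _ h4.1]; exact key z' h1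
    · rw [hR _ _ h5.1]; exact key z'' h2
  · refine le_trans (Set.ncard_le_ncard ?_ (Set.toFinite _)) (hdeg v)
    intro w hw
    exact hw.1

/-- The forest built on the `r`-th zigzag path, with the matching `M` inside its first class. -/
def colM (m : ℕ) (H : SimpleGraph X) (c : X → ℕ) (q : X → X → Bool) (hq : ∀ u v, q u v = q v u)
    (M : SimpleGraph X) (r : ℕ) : SimpleGraph X :=
  col m H c q hq r ⊔ inside M c r

section colM

variable [Finite X] {m : ℕ} {H : SimpleGraph X} {c : X → ℕ} {q : X → X → Bool}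
  {hq : ∀ u v, q u v = q v u} {M : SimpleGraph X} {r : ℕ}

lemma colM_lower (hr : r < m)
    (hone : ∀ x i β, i < m → i ≠ c x →
      ({y | H.Adj x y ∧ c y = i ∧ q x y = β} : Set X).ncard ≤ 1)
    (hM : ∀ v w w', M.Adj v w → M.Adj v w' → w = w')
    (x y y' : X) (h : (colM m H c q hq M r).Adj x y) (h' : (colM m H c q hq M r).Adj x y')
    (hp : pos m r (c y) ≤ pos m r (c x)) (hp' : pos m r (c y') ≤ pos m r (c x)) : y = y' := by
  rcases h with h | ⟨h1, h2, h3⟩
  · rcases h' with h' | ⟨h1', h2', h3'⟩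
    · exact col_lower hr hone h h' hp hp'
    · exfalso
      have h4 := col_pos h
      rw [h2', pos_self] at hp h4
      omega
  · rcases h' with h' | ⟨h1', h2', h3'⟩
    · exfalso
      have h4 := col_pos h'
      rw [h2, pos_self] at hp' h4
      omega
    · exact hM x y y' h1 h1'

lemma colM_isLinearForest (hr : r < m)
    (hone : ∀ x i β, i < m → i ≠ c x →
      ({y | H.Adj x y ∧ c y = i ∧ q x y = β} : Set X).ncard ≤ 1)
    (hM : ∀ v w w', M.Adj v w → M.Adj v w' → w = w') :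
    IsLinearForest (colM m H c q hq M r) := by
  refine ⟨acyclic_of_pos _ (fun x => pos m r (c x)) (colM_lower hr hone hM), fun v => ?_⟩
  refine deg_le_two_of_pos _ (fun x => pos m r (c x)) v (colM_lower hr hone hM v) ?_
  intro y y' h h' hp hp'
  rcases h with h | ⟨h1, h2, h3⟩
  · rcases h' with h' | ⟨h1', h2', h3'⟩
    · exact col_upper hr hone h h' hp hp'
    · exfalso
      simp only [h2', h3'] at hp'
      omega
  · exfalso
    simp only [h2, h3] at hp
    omega

lemma colM_last (hone : ∀ x i β, i < m → i ≠ c x →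
      ({y | H.Adj x y ∧ c y = i ∧ q x y = β} : Set X).ncard ≤ 1)
    (hM : ∀ v w w', M.Adj v w → M.Adj v w' → w = w') (v : X) (hv : c v < m)
    (hcm : ∀ y, c y < m) :
    ((colM m H c q hq M (rl m (c v))).neighborSet v).ncard ≤ 1 := by
  refine ncard_neighborSet_le_one (fun w w' h h' => ?_)
  have hr := rl_lt hv
  have hl := pos_rl hv
  refine colM_lower hr hone hM v w w' h h' ?_ ?_
  · have := pos_lt (hcm w) hr
    omega
  · have := pos_lt (hcm w') hr
    omega

end colM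

open Classical in
/-- The graph hosted at the last class of the `r`-th path. -/
noncomputable def hosted (m : ℕ) (C : ℕ → SimpleGraph X) (r : ℕ) : SimpleGraph X :=
  if h : ∃ i, i < m ∧ rl m i = r then C h.choose else ⊥

lemma hosted_rl {m i : ℕ} (C : ℕ → SimpleGraph X) (hi : i < m) : hosted m C (rl m i) = C i := by
  have h : ∃ j, j < m ∧ rl m j = rl m i := ⟨i, hi, rfl⟩
  have h1 : h.choose = i := rl_inj h.choose_spec.1 hi h.choose_spec.2
  rw [hosted, dif_pos h, h1]

lemma hosted_cases (m : ℕ) (C : ℕ → SimpleGraph X) (r : ℕ) :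
    hosted m C r = ⊥ ∨ ∃ i, i < m ∧ rl m i = r ∧ hosted m C r = C i := by
  by_cases h : ∃ i, i < m ∧ rl m i = r
  · obtain ⟨i, hi, rfl⟩ := h
    exact Or.inr ⟨i, hi, rfl, hosted_rl C hi⟩
  · left
    rw [hosted, dif_neg h]

/-- Core of the theorem for `2`-frugal partitions. -/
lemma frugal_core [Finite X] (H : SimpleGraph X) (m : ℕ) (c : X → ℕ) (hc : ∀ x, c x < m)
    (hout : ∀ x i, i ≠ c x → ({y | H.Adj x y ∧ c y = i} : Set X).ncard ≤ 2)
    (M : SimpleGraph X) (hMH : M ≤ H) (hM : ∀ v w w', M.Adj v w → M.Adj v w' → w = w')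
    (Z : SimpleGraph X) (hZH : Z ≤ H) (hZc : ∀ u v, Z.Adj u v → c u = c v)
    (hZ : ∀ v, (Z.neighborSet v).ncard ≤ 2) :
    ∃ (F : Fin m → SimpleGraph X) (Z' : SimpleGraph X), (∀ r, IsLinearForest (F r)) ∧
      (∀ r, F r ≤ H) ∧ IsLinearForest Z' ∧ Z' ≤ Z ∧
      (∀ x y, H.Adj x y → c x ≠ c y → ∃ r, (F r).Adj x y) ∧
      (∀ x y, M.Adj x y → c x = c y → ∃ r, (F r).Adj x y) ∧
      (∀ x y, Z.Adj x y → (∃ r, (F r).Adj x y) ∨ Z'.Adj x y) := by
  classical
  obtain ⟨q, hq, hbal⟩ := split_graph H c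
  have hone : ∀ x i β, i < m → i ≠ c x →
      ({y | H.Adj x y ∧ c y = i ∧ q x y = β} : Set X).ncard ≤ 1 := by
    intro x i β _ hi
    have h1 := hbal x i β hi
    have h2 := hout x i hi
    omega
  obtain ⟨C, hC1, hC2, hC3⟩ := host_all (m := m) c (fun r => colM m H c q hq M r)
    (fun r hr => colM_isLinearForest hr hone hM) (fun v hv => colM_last hone hM v hv hc) Z hZc
    (fun u _ _ => hc u)
  refine ⟨fun r => colM m H c q hq M r ⊔ hosted m C r, rem Z c C hZc, ?_, ?_, ?_, ?_, ?_,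
      ?_, ?_⟩
  · intro r
    rcases hosted_cases m C r with h | ⟨i, hi, h1, h2⟩
    · dsimp only
      rw [h, sup_bot_eq]
      exact colM_isLinearForest r.2 hone hM
    · dsimp only
      rw [h2, ← h1]
      exact hC2 i hi
  · intro r
    refine sup_le (sup_le col_le ((inside_le _ _ _).trans hMH)) ?_
    rcases hosted_cases m C r with h | ⟨i, hi, h1, h2⟩
    · rw [h]; exact bot_le
    · rw [h2]; exact ((hC1 _).trans (inside_le _ _ _)).trans hZH
  · exact rem_isLinearForest Z c C hZc hZ hC1 hC3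
  · intro x y h
    exact h.1
  · intro x y hxy hne
    by_cases hqq : q x y = true
    · exact ⟨⟨r1 m (c x) (c y), r1_lt (hc x) (hc y)⟩,
        Or.inl (Or.inl ⟨hxy, hc x, hc y, hne, Or.inl ⟨rfl, hqq⟩⟩)⟩
    · exact ⟨⟨r2 m (c x) (c y), r2_lt (hc x) (hc y)⟩,
        Or.inl (Or.inl ⟨hxy, hc x, hc y, hne, Or.inr ⟨rfl, by simpa using hqq⟩⟩)⟩
  · intro x y hxy hcc
    exact ⟨⟨c x, hc x⟩, Or.inl (Or.inr ⟨hxy, rfl, hcc.symm⟩)⟩
  · intro x y hxy
    by_cases hCxy : (C (c x)).Adj x y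
    · left
      refine ⟨⟨rl m (c x), rl_lt (hc x)⟩, Or.inr ?_⟩
      dsimp only
      rw [hosted_rl C (hc x)]
      exact hCxy
    · exact Or.inr ⟨hxy, hCxy⟩

end Pool.Agent.Helper75_LA
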