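import Mathlib
import Pool.Agent.Helper75_LA.General

set_option autoImplicit false

open SimpleGraph Pool.Agent.Helper14_LA

namespace Pool.Agent.Helper75_LA

variable {X : Type*}

/-- The edges inside the classes. -/
def own (H : SimpleGraph X) (c : X → ℕ) : SimpleGraph X where
  Adj x y := H.Adj x y ∧ c x = c y
  symm := ⟨fun _ _ h => ⟨h.1.symm, h.2.symm⟩⟩
  loopless := ⟨fun _ h => h.1.ne rfl⟩

/-- The edges between different classes with a given colour. -/
def part (H : SimpleGraph X) (c : X → ℕ) (q : X → X → Bool) (hq : ∀ u v, q u v = q v u)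
    (β : Bool) : SimpleGraph X where
  Adj x y := H.Adj x y ∧ c x ≠ c y ∧ q x y = β
  symm := ⟨fun x y h => ⟨h.1.symm, h.2.1.symm, by rw [hq]; exact h.2.2⟩⟩
  loopless := ⟨fun _ h => h.1.ne rfl⟩

/-- If every vertex has at most four neighbours in every other class and at most two in its own,
then `2m` linear forests suffice. -/
theorem four_core [Finite X] (H : SimpleGraph X) (m : ℕ) (c : X → ℕ) (hc : ∀ x, c x < m)
    (hout : ∀ x i, i ≠ c x → ({y | H.Adj x y ∧ c y = i} : Set X).ncard ≤ 4)
    (hown : ∀ x, ({y | H.Adj x y ∧ c y = c x} : Set X).ncard ≤ 2) :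
    CoveredBy H (2 * m) := by
  classical
  obtain ⟨q, hq, hbal⟩ := split_graph H c
  have hpart : ∀ β x i, i ≠ c x →
      ({y | (part H c q hq β).Adj x y ∧ c y = i} : Set X).ncard ≤ 2 := by
    intro β x i hi
    have h1 := hbal x i β hi
    have h2 := hout x i hi
    have h3 : ({y | (part H c q hq β).Adj x y ∧ c y = i} : Set X)
        ⊆ {y | H.Adj x y ∧ c y = i ∧ q x y = β} := by
      rintro y ⟨h, h'⟩
      exact ⟨h.1, h', h.2.2⟩
    have h4 := Set.ncard_le_ncard h3 (Set.toFinite _)
    omega
  have hex := fun β => split_graph (part H c q hq β) c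
  choose p hp hpbal using hex
  have hone : ∀ β x i γ, i < m → i ≠ c x →
      ({y | (part H c q hq β).Adj x y ∧ c y = i ∧ p β x y = γ} : Set X).ncard ≤ 1 := by
    intro β x i γ _ hi
    have h1 := hpbal β x i γ hi
    have h2 := hpart β x i hi
    omega
  set Z := own H c with hZdef
  have hZdeg : ∀ v, (Z.neighborSet v).ncard ≤ 2 := by
    intro v
    refine le_trans (Set.ncard_le_ncard ?_ (Set.toFinite _)) (hown v)
    intro w hw
    exact ⟨hw.1, hw.2.symm⟩
  obtain ⟨A, hAZ, hA1, hA2⟩ := exists_maximal_matching Z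
  set R := Z \ A with hRdef
  have hRZ : R ≤ Z := sdiff_le
  have hRadj : ∀ u v, R.Adj u v ↔ Z.Adj u v ∧ ¬ A.Adj u v := fun u v => by
    rw [hRdef, sdiff_adj]
  have hRc : ∀ u v, R.Adj u v → c u = c v := fun u v h => (hRZ h).2
  obtain ⟨C, hC1, hC2, hC3⟩ := host_all (m := m) c
    (fun r => colM m (part H c q hq true) c (p true) (hp true) A r)
    (fun r hr => colM_isLinearForest hr (hone true) hA1)
    (fun v hv => colM_last (hone true) hA1 v hv hc) R hRc (fun u _ _ => hc u)
  set B := rem R c C hRc with hBdef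
  have hBR : ∀ u v, B.Adj u v → R.Adj u v := fun u v h => h.1
  -- `B` is a matching
  have hB1 : ∀ v w w', B.Adj v w → B.Adj v w' → w = w' := by
    intro z z' z'' h1 h2
    by_contra hne
    have hz1 := hRZ h1.1
    have hz2 := hRZ h2.1
    -- a general fact: a `B`-neighbour of an uncovered vertex has no `C`-edge
    have hzA : ∀ w, ¬ A.Adj z w := by
      intro w hw
      rcases eq_or_eq_of_deg_le_two (hZdeg z) hz1 hz2 hne (hAZ hw) with rfl | rfl
      · exact ((hRadj _ _).1 h1.1).2 hw
      · exact ((hRadj _ _).1 h2.1).2 hw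
    have hzC : ∀ w, ¬ (C (c z)).Adj z w := by
      intro w hw
      rcases eq_or_eq_of_deg_le_two (hZdeg z) hz1 hz2 hne (hRZ (hC1 _ hw).1) with rfl | rfl
      · exact h1.2 hw
      · exact h2.2 hw
    have key : ∀ y, B.Adj z y → ∀ w, ¬ (C (c z)).Adj y w := by
      intro y hy w hw
      have hcy : c z = c y := hRc _ _ hy.1
      have hzy : Z.Adj z y := hRZ hy.1
      obtain ⟨u, hu⟩ : ∃ u, A.Adj y u := by
        rcases hA2 z y hzy with ⟨u, hu⟩ | h
        · exact absurd hu (hzA u)
        · exact h
      have huz : u ≠ z := by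
        rintro rfl
        exact hzA _ hu.symm
      have hw' : Z.Adj y w := hRZ (hC1 _ hw).1
      rcases eq_or_eq_of_deg_le_two (hZdeg y) hzy.symm (hAZ hu) (Ne.symm huz) hw' with rfl | rfl
      · exact hy.2 hw.symm
      · exact ((hRadj _ _).1 (hC1 _ hw).1).2 hu
    exact hC3 z z' z'' h1.1 h2.1 hne hzC (key z' h1) (key z'' h2)
  have hcard : Fintype.card (Fin m × Bool) = 2 * m := by
    simp [mul_comm]
  rw [← hcard]
  refine coveredBy_of H (fun s : Fin m × Bool => if s.2 = true then
    colM m (part H c q hq true) c (p true) (hp true) A s.1 ⊔ hosted m C s.1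
    else colM m (part H c q hq false) c (p false) (hp false) B s.1) ?_ ?_ ?_
  · rintro ⟨r, b⟩
    cases b with
    | true =>
      simp only [if_true]
      rcases hosted_cases m C r with h | ⟨i, hi, h1, h2⟩
      · rw [h, sup_bot_eq]
        exact colM_isLinearForest r.2 (hone true) hA1
      · rw [h2, ← h1]
        exact hC2 i hi
    | false =>
      simp only [Bool.false_eq_true, if_false]
      exact colM_isLinearForest r.2 (hone false) hB1
  · have hpl : ∀ β, part H c q hq β ≤ H := fun β x y h => h.1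
    have hZH : Z ≤ H := fun x y h => h.1
    rintro ⟨r, b⟩
    cases b with
    | true =>
      simp only [if_true]
      refine sup_le (sup_le (col_le.trans (hpl _)) ((inside_le _ _ _).trans (hAZ.trans hZH))) ?_
      rcases hosted_cases m C r with h | ⟨i, hi, h1, h2⟩
      · rw [h]; exact bot_le
      · rw [h2]; exact ((hC1 _).trans (inside_le _ _ _)).trans (hRZ.trans hZH)
    | false =>
      simp only [Bool.false_eq_true, if_false]
      refine sup_le (col_le.trans (hpl _)) ((inside_le _ _ _).trans ?_)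
      intro x y h
      exact hZH (hRZ h.1)
  · intro x y hxy
    by_cases hcc : c x = c y
    · have hZxy : Z.Adj x y := ⟨hxy, hcc⟩
      by_cases hAxy : A.Adj x y
      · refine ⟨(⟨c x, hc x⟩, true), ?_⟩
        simp only [if_true]
        exact Or.inl (Or.inr ⟨hAxy, rfl, hcc.symm⟩)
      · have hRxy : R.Adj x y := (hRadj x y).2 ⟨hZxy, hAxy⟩
        by_cases hCxy : (C (c x)).Adj x y
        · refine ⟨(⟨rl m (c x), rl_lt (hc x)⟩, true), ?_⟩
          simp only [if_true]
          refine Or.inr ?_
          rw [hosted_rl C (hc x)]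
          exact hCxy
        · refine ⟨(⟨c x, hc x⟩, false), ?_⟩
          simp only [Bool.false_eq_true, if_false]
          exact Or.inr ⟨⟨hRxy, hCxy⟩, rfl, hcc.symm⟩
    · have key : ∀ β, q x y = β → ∃ r : Fin m,
          (col m (part H c q hq β) c (p β) (hp β) r).Adj x y := by
        intro β hβ
        have hpa : (part H c q hq β).Adj x y := ⟨hxy, hcc, hβ⟩
        by_cases hqq : p β x y = true
        · exact ⟨⟨r1 m (c x) (c y), r1_lt (hc x) (hc y)⟩,
            hpa, hc x, hc y, hcc, Or.inl ⟨rfl, hqq⟩⟩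
        · exact ⟨⟨r2 m (c x) (c y), r2_lt (hc x) (hc y)⟩,
            hpa, hc x, hc y, hcc, Or.inr ⟨rfl, by simpa using hqq⟩⟩
      cases hβ : q x y with
      | true =>
        obtain ⟨r, hr⟩ := key true hβ
        refine ⟨(r, true), ?_⟩
        simp only [if_true]
        exact Or.inl (Or.inl hr)
      | false =>
        obtain ⟨r, hr⟩ := key false hβ
        refine ⟨(r, false), ?_⟩
        simp only [Bool.false_eq_true, if_false]
        exact Or.inl hr

end Pool.Agent.Helper75_LA
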