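import Mathlib
import Pool.Agent.Helper75_LA.Four

set_option autoImplicit false

open SimpleGraph Pool.Agent.Helper14_LA

namespace Pool.Agent.Helper75_LA

variable {X : Type*}

/-- The edges of `H` between the class `r` and the special class `m`. -/
def fold (m : ℕ) (H : SimpleGraph X) (c : X → ℕ) (r : ℕ) : SimpleGraph X where
  Adj x y := H.Adj x y ∧ ((c x = r ∧ c y = m) ∨ (c x = m ∧ c y = r))
  symm := ⟨fun _ _ h => ⟨h.1.symm, by tauto⟩⟩
  loopless := ⟨fun _ h => h.1.ne rfl⟩

/-- Positions with the special class at the bottom. -/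
def fpos (m : ℕ) (c : X → ℕ) (r : ℕ) (x : X) : ℕ :=
  if c x = m then 0 else pos m r (c x) + 1

lemma fold_lower [Finite X] {m : ℕ} {H : SimpleGraph X} {c : X → ℕ} {q : X → X → Bool}
    {hq : ∀ u v, q u v = q v u} {r : ℕ} (hr : r < m)
    (hone : ∀ x i β, i < m → i ≠ c x →
      ({y | H.Adj x y ∧ c y = i ∧ q x y = β} : Set X).ncard ≤ 1)
    (hspec : ∀ x, c x < m → ({y | H.Adj x y ∧ c y = m} : Set X).ncard ≤ 1)
    (x y y' : X) (h : (col m H c q hq r ⊔ fold m H c r).Adj x y)
    (h' : (col m H c q hq r ⊔ fold m H c r).Adj x y')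
    (hp : fpos m c r y ≤ fpos m c r x) (hp' : fpos m c r y' ≤ fpos m c r x) : y = y' := by
  -- the vertex `x` is not in the special class
  have hx : c x < m := by
    rcases h with h | ⟨h1, ⟨h2, h3⟩ | ⟨h2, h3⟩⟩
    · exact h.2.1
    · rw [h2]; exact hr
    · exfalso
      unfold fpos at hp
      rw [if_pos h2, if_neg (by omega)] at hp
      omega
  have hxm : c x ≠ m := by omega
  have hcolp : ∀ z, (col m H c q hq r).Adj x z → fpos m c r z ≤ fpos m c r x →
      pos m r (c z) ≤ pos m r (c x) := by
    intro z hz hz2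
    have h1 : c z < m := hz.2.2.1
    unfold fpos at hz2
    rw [if_neg hxm, if_neg (by omega)] at hz2
    omega
  have hno : ∀ z w, (col m H c q hq r).Adj x z → fpos m c r z ≤ fpos m c r x →
      (fold m H c r).Adj x w → False := by
    intro z w hz hz2 hw
    have h1 := hcolp z hz hz2
    have h2 := col_pos hz
    rcases hw.2 with ⟨h3, _⟩ | ⟨h3, _⟩
    · rw [h3, pos_self] at h1 h2
      omega
    · exact hxm h3
  rcases h with h | h
  · rcases h' with h' | h'
    · exact col_lower hr hone h h' (hcolp y h hp) (hcolp y' h' hp')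
    · exact absurd h' (fun h'' => hno y y' h hp h'')
  · rcases h' with h' | h'
    · exact absurd h (fun h'' => hno y' y h' hp' h'')
    · have h1 := hspec x hx
      rw [Set.ncard_le_one (Set.toFinite _)] at h1
      refine h1 y ⟨h.1, ?_⟩ y' ⟨h'.1, ?_⟩
      · rcases h.2 with h2 | h2
        · exact h2.2
        · exact absurd h2.1 hxm
      · rcases h'.2 with h2 | h2
        · exact h2.2
        · exact absurd h2.1 hxm

lemma fold_isLinearForest [Finite X] {m : ℕ} {H : SimpleGraph X} {c : X → ℕ} {q : X → X → Bool}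
    {hq : ∀ u v, q u v = q v u} {r : ℕ} (hr : r < m)
    (hone : ∀ x i β, i < m → i ≠ c x →
      ({y | H.Adj x y ∧ c y = i ∧ q x y = β} : Set X).ncard ≤ 1)
    (hspec : ∀ x, c x < m → ({y | H.Adj x y ∧ c y = m} : Set X).ncard ≤ 1)
    (hspec' : ∀ x i, c x = m → i < m → ({y | H.Adj x y ∧ c y = i} : Set X).ncard ≤ 2) :
    IsLinearForest (col m H c q hq r ⊔ fold m H c r) := by
  refine ⟨acyclic_of_pos _ (fpos m c r) (fold_lower hr hone hspec), fun v => ?_⟩
  by_cases hv : c v = m
  · refine le_trans (Set.ncard_le_ncard ?_ (Set.toFinite _)) (hspec' v r hv hr)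
    intro w hw
    rcases hw with hw | hw
    · exfalso
      have := hw.2.1
      omega
    · rcases hw.2 with h | h
      · omega
      · exact ⟨hw.1, h.2⟩
  · refine deg_le_two_of_pos _ (fpos m c r) v (fold_lower hr hone hspec v) ?_
    intro y y' h h' hp hp'
    have key : ∀ z, (col m H c q hq r ⊔ fold m H c r).Adj v z → fpos m c r v < fpos m c r z →
        (col m H c q hq r).Adj v z ∧ pos m r (c v) < pos m r (c z) := by
      intro z hz hz2
      unfold fpos at hz2
      rw [if_neg hv] at hz2
      by_cases hzm : c z = m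
      · rw [if_pos hzm] at hz2
        omega
      · rw [if_neg hzm] at hz2
        refine ⟨?_, by omega⟩
        rcases hz with hz | hz
        · exact hz
        · rcases hz.2 with h | h
          · exact absurd h.2 hzm
          · exact absurd h.1 hv
    obtain ⟨k1, k2⟩ := key y h hp
    obtain ⟨k3, k4⟩ := key y' h' hp'
    exact col_upper hr hone k1 k3 k2 k4

lemma fold_last [Finite X] {m : ℕ} {H : SimpleGraph X} {c : X → ℕ} {q : X → X → Bool}
    {hq : ∀ u v, q u v = q v u}
    (hone : ∀ x i β, i < m → i ≠ c x →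
      ({y | H.Adj x y ∧ c y = i ∧ q x y = β} : Set X).ncard ≤ 1)
    (hspec : ∀ x, c x < m → ({y | H.Adj x y ∧ c y = m} : Set X).ncard ≤ 1)
    (hcm : ∀ y, c y ≤ m) (v : X) (hv : c v < m) :
    ((col m H c q hq (rl m (c v)) ⊔ fold m H c (rl m (c v))).neighborSet v).ncard ≤ 1 := by
  have hr := rl_lt hv
  have hl := pos_rl hv
  have hmax : ∀ w, fpos m c (rl m (c v)) w ≤ fpos m c (rl m (c v)) v := by
    intro w
    unfold fpos
    rw [if_neg (show ¬ c v = m by omega)]
    split_ifs with h
    · omega
    · have h1 : c w < m := lt_of_le_of_ne (hcm w) h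
      have h2 := pos_lt h1 hr
      omega
  exact ncard_neighborSet_le_one (fun w w' h h' =>
    fold_lower hr hone hspec v w w' h h' (hmax w) (hmax w'))

/-- The variant with an additional independent class (the class `m`). -/
theorem fold_core [Finite X] (H : SimpleGraph X) (m : ℕ) (c : X → ℕ) (hc : ∀ x, c x ≤ m)
    (hout : ∀ x i, i < m → i ≠ c x → ({y | H.Adj x y ∧ c y = i} : Set X).ncard ≤ 4)
    (hown : ∀ x, c x < m → ({y | H.Adj x y ∧ c y = c x} : Set X).ncard ≤ 2)
    (hspec : ∀ x, c x < m → ({y | H.Adj x y ∧ c y = m} : Set X).ncard ≤ 2)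
    (hind : ∀ x y, H.Adj x y → c x = m → c y < m) :
    CoveredBy H (2 * m + 1) := by
  classical
  obtain ⟨q, hq, hbal⟩ := split_graph H c
  have hsub : ∀ β x i, ({y | (part H c q hq β).Adj x y ∧ c y = i} : Set X)
        ⊆ {y | H.Adj x y ∧ c y = i ∧ q x y = β} := by
    rintro β x i y ⟨h, h'⟩
    exact ⟨h.1, h', h.2.2⟩
  have hpart : ∀ β x i, i < m → i ≠ c x →
      ({y | (part H c q hq β).Adj x y ∧ c y = i} : Set X).ncard ≤ 2 := by
    intro β x i him hi
    have h1 := hbal x i β hi
    have h2 := hout x i him hi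
    have h4 := Set.ncard_le_ncard (hsub β x i) (Set.toFinite _)
    omega
  have hpspec : ∀ β x, c x < m →
      ({y | (part H c q hq β).Adj x y ∧ c y = m} : Set X).ncard ≤ 1 := by
    intro β x hx
    have h1 := hbal x m β (by omega)
    have h2 := hspec x hx
    have h4 := Set.ncard_le_ncard (hsub β x m) (Set.toFinite _)
    omega
  have hpspec' : ∀ β x i, c x = m → i < m →
      ({y | (part H c q hq β).Adj x y ∧ c y = i} : Set X).ncard ≤ 2 := by
    intro β x i hx hi
    exact hpart β x i hi (by omega)
  have hex := fun β => split_graph (part H c q hq β) c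
  choose p hp hpbal using hex
  have hone : ∀ β x i γ, i < m → i ≠ c x →
      ({y | (part H c q hq β).Adj x y ∧ c y = i ∧ p β x y = γ} : Set X).ncard ≤ 1 := by
    intro β x i γ him hi
    have h1 := hpbal β x i γ hi
    have h2 := hpart β x i him hi
    omega
  set Z := own H c with hZdef
  have hZlt : ∀ u v, Z.Adj u v → c u < m := by
    intro u v h
    by_contra hcon
    have h1 : c u = m := le_antisymm (hc u) (not_lt.1 hcon)
    have h2 := hind u v h.1 h1
    have h3 := h.2
    omega
  have hZdeg : ∀ v, (Z.neighborSet v).ncard ≤ 2 := by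
    intro v
    by_cases hv : c v < m
    · refine le_trans (Set.ncard_le_ncard ?_ (Set.toFinite _)) (hown v hv)
      intro w hw
      exact ⟨hw.1, hw.2.symm⟩
    · have : Z.neighborSet v = ∅ := by
        ext w
        simp only [mem_neighborSet, Set.mem_empty_iff_false, iff_false]
        exact fun h => hv (hZlt v w h)
      rw [this, Set.ncard_empty]
      omega
  have hZc : ∀ u v, Z.Adj u v → c u = c v := fun u v h => h.2
  obtain ⟨C, hC1, hC2, hC3⟩ := host_all (m := m) c
    (fun r => col m (part H c q hq true) c (p true) (hp true) r ⊔ fold m (part H c q hq true) c r)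
    (fun r hr => fold_isLinearForest hr (hone true) (hpspec true) (hpspec' true))
    (fun v hv => fold_last (hone true) (hpspec true) hc v hv) Z hZc hZlt
  have hcard : Fintype.card (Option (Fin m × Bool)) = 2 * m + 1 := by
    simp [mul_comm]
  rw [← hcard]
  let F : Option (Fin m × Bool) → SimpleGraph X
    | none => rem Z c C hZc
    | some (r, true) => (col m (part H c q hq true) c (p true) (hp true) r ⊔
        fold m (part H c q hq true) c r) ⊔ hosted m C r
    | some (r, false) => col m (part H c q hq false) c (p false) (hp false) r ⊔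
        fold m (part H c q hq false) c r
  have hpl : ∀ β, part H c q hq β ≤ H := fun β x y h => h.1
  have hfl : ∀ β r, fold m (part H c q hq β) c r ≤ H := fun β r x y h => h.1.1
  have hZH : Z ≤ H := fun x y h => h.1
  refine coveredBy_of H F ?_ ?_ ?_
  · rintro (_ | ⟨r, _ | _⟩)
    · exact rem_isLinearForest Z c C hZc hZdeg hC1 hC3
    · exact fold_isLinearForest r.2 (hone false) (hpspec false) (hpspec' false)
    · show IsLinearForest ((col m (part H c q hq true) c (p true) (hp true) r ⊔
        fold m (part H c q hq true) c r) ⊔ hosted m C r)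
      rcases hosted_cases m C r with h | ⟨i, hi, h1, h2⟩
      · rw [h, sup_bot_eq]
        exact fold_isLinearForest r.2 (hone true) (hpspec true) (hpspec' true)
      · rw [h2, ← h1]
        exact hC2 i hi
  · rintro (_ | ⟨r, _ | _⟩)
    · intro x y h
      exact hZH h.1
    · exact sup_le (col_le.trans (hpl _)) (hfl _ _)
    · refine sup_le (sup_le (col_le.trans (hpl _)) (hfl _ _)) ?_
      rcases hosted_cases m C r with h | ⟨i, hi, h1, h2⟩
      · rw [h]; exact bot_le
      · rw [h2]; exact ((hC1 _).trans (inside_le _ _ _)).trans hZH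
  · intro x y hxy
    by_cases hcc : c x = c y
    · have hZxy : Z.Adj x y := ⟨hxy, hcc⟩
      have hx := hZlt x y hZxy
      by_cases hCxy : (C (c x)).Adj x y
      · refine ⟨some (⟨rl m (c x), rl_lt hx⟩, true), Or.inr ?_⟩
        show (hosted m C (rl m (c x))).Adj x y
        rw [hosted_rl C hx]
        exact hCxy
      · exact ⟨none, hZxy, hCxy⟩
    · have key : ∀ β, q x y = β → ∃ r : Fin m,
          (col m (part H c q hq β) c (p β) (hp β) r ⊔ fold m (part H c q hq β) c r).Adj x y := by
        intro β hβ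
        have hpa : (part H c q hq β).Adj x y := ⟨hxy, hcc, hβ⟩
        rcases lt_or_eq_of_le (hc x) with hx | hx
        · rcases lt_or_eq_of_le (hc y) with hy | hy
          · by_cases hqq : p β x y = true
            · exact ⟨⟨r1 m (c x) (c y), r1_lt hx hy⟩,
                Or.inl ⟨hpa, hx, hy, hcc, Or.inl ⟨rfl, hqq⟩⟩⟩
            · exact ⟨⟨r2 m (c x) (c y), r2_lt hx hy⟩,
                Or.inl ⟨hpa, hx, hy, hcc, Or.inr ⟨rfl, by simpa using hqq⟩⟩⟩
          · exact ⟨⟨c x, hx⟩, Or.inr ⟨hpa, Or.inl ⟨rfl, hy⟩⟩⟩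
        · have hy : c y < m := hind x y hxy hx
          exact ⟨⟨c y, hy⟩, Or.inr ⟨hpa, Or.inr ⟨hx, rfl⟩⟩⟩
      cases hβ : q x y with
      | true =>
        obtain ⟨r, hr⟩ := key true hβ
        exact ⟨some (r, true), Or.inl hr⟩
      | false =>
        obtain ⟨r, hr⟩ := key false hβ
        exact ⟨some (r, false), hr⟩

end Pool.Agent.Helper75_LA
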