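import Mathlib
import Pool.Agent.Helper75_LA.Split
import Pool.Agent.Helper75_LA.Host
import Pool.Agent.Helper14_LA.Konig

set_option autoImplicit false

open SimpleGraph

namespace Pool.Agent.Helper75_LA

/-- **Petersen's `2`-factor theorem** in the form: the edges of a `2h`-regular graph can be
coloured with `h` colours so that every vertex is on at most two edges of each colour. -/
lemma petersen {V : Type*} [Finite V] (G : SimpleGraph V) (h : ℕ)
    (hG : ∀ v, (G.neighborSet v).ncard = 2 * h) :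
    ∃ c : Sym2 V → ℕ, (∀ e ∈ G.edgeSet, c e < h) ∧
      ∀ v i, ({e | e ∈ G.edgeSet ∧ v ∈ e ∧ c e = i} : Set (Sym2 V)).ncard ≤ 2 := by
  classical
  have := Fintype.ofFinite V
  obtain ⟨E, hE⟩ : ∃ E : Finset (V × V), ∀ z : V × V, z ∈ E ↔ G.Adj z.1 z.2 :=
    ⟨Finset.univ.filter (fun z => G.Adj z.1 z.2), fun z => by simp⟩
  obtain ⟨f, hf1, hf2⟩ := balanced_split (fun z : V × V => z.1) (fun z : V × V => s(z.1, z.2)) E
  -- the two orientations of an edge get different colours
  have hflip : ∀ u v, G.Adj u v → f (v, u) = !f (u, v) := by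
    intro u v huv
    by_contra hcon
    have heq : f (v, u) = f (u, v) := by
      revert hcon
      cases f (v, u) <;> cases f (u, v) <;> simp
    have h1 := hf2 s(u, v) (f (u, v))
    have h2 : (E.filter (fun z => s(z.1, z.2) = s(u, v) ∧ f z = !f (u, v))).card = 0 := by
      rw [Finset.card_eq_zero, Finset.filter_eq_empty_iff]
      rintro ⟨a, b⟩ _ ⟨h3, h4⟩
      simp only [Sym2.eq_iff] at h3
      rcases h3 with ⟨rfl, rfl⟩ | ⟨rfl, rfl⟩
      · revert h4; cases f (a, b) <;> simp
      · rw [heq] at h4; revert h4; cases f (b, a) <;> simp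
    have h3 : 2 ≤ (E.filter (fun z => s(z.1, z.2) = s(u, v) ∧ f z = f (u, v))).card := by
      have hsub : ({(u, v), (v, u)} : Finset (V × V)) ⊆
          E.filter (fun z => s(z.1, z.2) = s(u, v) ∧ f z = f (u, v)) := by
        intro z hz
        simp only [Finset.mem_insert, Finset.mem_singleton] at hz
        rw [Finset.mem_filter, hE]
        rcases hz with rfl | rfl
        · exact ⟨huv, rfl, rfl⟩
        · exact ⟨huv.symm, Sym2.eq_swap, heq⟩
      have h4 := Finset.card_le_card hsub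
      rw [Finset.card_pair (by
        intro h5
        rw [Prod.mk.injEq] at h5
        exact huv.ne h5.1)] at h4
      exact h4
    omega
  have hdeg : ∀ v, (E.filter (fun z => z.1 = v)).card = 2 * h := by
    intro v
    rw [← hG v, ← Set.ncard_coe_finset]
    rw [← Set.ncard_image_of_injective (f := fun y : V => (v, y)) (G.neighborSet v)
      (fun a b hab => by simpa using hab)]
    congr 1
    ext ⟨a, b⟩
    simp only [Finset.coe_filter, Set.mem_image, mem_neighborSet, Prod.mk.injEq, hE]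
    constructor
    · rintro ⟨h1, rfl⟩
      exact ⟨b, h1, rfl, rfl⟩
    · rintro ⟨y, h1, rfl, rfl⟩
      exact ⟨h1, rfl⟩
  have hhalf : ∀ v b, (E.filter (fun z => z.1 = v ∧ f z = b)).card = h := by
    intro v b
    have h1 := half_of_balanced (fun z : V × V => z.1) E f hf1 v b
    have h2 := half_of_balanced (fun z : V × V => z.1) E f hf1 v (!b)
    have h3 : (E.filter (fun z => z.1 = v ∧ f z = b)).card
        + (E.filter (fun z => z.1 = v ∧ f z = !b)).card = (E.filter (fun z => z.1 = v)).card := by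
      rw [← Finset.card_filter_add_card_filter_not (s := E.filter (fun z => z.1 = v))
        (fun z => f z = b), Finset.filter_filter, Finset.filter_filter]
      congr 2
      ext z
      simp only [Finset.mem_filter]
      constructor
      · rintro ⟨h4, h5, h6⟩
        refine ⟨h4, h5, ?_⟩
        rw [h6]
        cases b <;> simp
      · rintro ⟨h4, h5, h6⟩
        refine ⟨h4, h5, ?_⟩
        cases b <;> simpa using h6
    rw [hdeg] at h1 h2 h3
    omega
  let E' : Finset (V × V) := E.filter (fun z => f z = true)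
  have hE' : ∀ z, z ∈ E' ↔ G.Adj z.1 z.2 ∧ f z = true := fun z => by simp [E', hE]
  have hout : ∀ v, (E'.filter (fun z => z.1 = v)).card = h := by
    intro v
    rw [← hhalf v true]
    congr 1
    ext z
    simp only [E', Finset.mem_filter]
    tauto
  have hin : ∀ v, (E'.filter (fun z => z.2 = v)).card = h := by
    intro v
    rw [← hhalf v false]
    refine Finset.card_bij (fun z _ => (z.2, z.1)) ?_ ?_ ?_
    · rintro ⟨a, b⟩ hz
      rw [Finset.mem_filter, hE'] at hz
      rw [Finset.mem_filter, hE]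
      refine ⟨hz.1.1.symm, hz.2, ?_⟩
      rw [hflip a b hz.1.1, hz.1.2]
      rfl
    · rintro ⟨a, b⟩ _ ⟨a', b'⟩ _ h3
      simp only [Prod.mk.injEq] at h3 ⊢
      exact ⟨h3.2, h3.1⟩
    · rintro ⟨a, b⟩ hz
      rw [Finset.mem_filter, hE] at hz
      refine ⟨(b, a), ?_, rfl⟩
      rw [Finset.mem_filter, hE']
      refine ⟨⟨hz.1.symm, ?_⟩, hz.2.1⟩
      rw [hflip a b hz.1, hz.2.2]
      rfl
  obtain ⟨l, hl1, hl2, hl3⟩ := Pool.Agent.Helper14_LA.konig (fun z : V × V => z.1)
    (fun z : V × V => z.2) h E' hout hin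
  have hex : ∀ e ∈ G.edgeSet, ∃ z ∈ E', s(z.1, z.2) = e := by
    intro e he
    induction e with
    | _ u v =>
    rw [mem_edgeSet] at he
    by_cases hf : f (u, v) = true
    · exact ⟨(u, v), (hE' _).2 ⟨he, hf⟩, rfl⟩
    · refine ⟨(v, u), (hE' _).2 ⟨he.symm, ?_⟩, Sym2.eq_swap⟩
      rw [hflip u v he]
      simpa using hf
  let c : Sym2 V → ℕ := fun e => if h : ∃ z ∈ E', s(z.1, z.2) = e then l h.choose else 0
  have hc : ∀ e ∈ G.edgeSet, ∃ z ∈ E', s(z.1, z.2) = e ∧ c e = l z := by
    intro e he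
    have h1 := hex e he
    exact ⟨h1.choose, h1.choose_spec.1, h1.choose_spec.2, dif_pos h1⟩
  refine ⟨c, ?_, ?_⟩
  · intro e he
    obtain ⟨z, hz, _, h2⟩ := hc e he
    rw [h2]
    exact hl1 z hz
  · intro v i
    have hsub : ({e | e ∈ G.edgeSet ∧ v ∈ e ∧ c e = i} : Set (Sym2 V)) ⊆
        (fun z : V × V => s(z.1, z.2)) '' {z | z ∈ E' ∧ z.1 = v ∧ l z = i} ∪
        (fun z : V × V => s(z.1, z.2)) '' {z | z ∈ E' ∧ z.2 = v ∧ l z = i} := by
      rintro e ⟨h1, h2, h3⟩
      obtain ⟨z, hz, h4, h5⟩ := hc e h1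
      rw [← h4, Sym2.mem_iff] at h2
      rcases h2 with h2 | h2
      · exact Or.inl ⟨z, ⟨hz, h2.symm, by rw [← h5, h3]⟩, h4⟩
      · exact Or.inr ⟨z, ⟨hz, h2.symm, by rw [← h5, h3]⟩, h4⟩
    have h1 : ((fun z : V × V => s(z.1, z.2)) '' {z | z ∈ E' ∧ z.1 = v ∧ l z = i}).ncard ≤ 1 := by
      refine le_trans (Set.ncard_image_le (Set.toFinite _)) ?_
      exact ncard_le_one_of (fun x hx y hy => hl2 x hx.1 y hy.1 (by rw [hx.2.2, hy.2.2])
        (by rw [hx.2.1, hy.2.1]))
    have h2 : ((fun z : V × V => s(z.1, z.2)) '' {z | z ∈ E' ∧ z.2 = v ∧ l z = i}).ncard ≤ 1 := by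
      refine le_trans (Set.ncard_image_le (Set.toFinite _)) ?_
      exact ncard_le_one_of (fun x hx y hy => hl3 x hx.1 y hy.1 (by rw [hx.2.2, hy.2.2])
        (by rw [hx.2.1, hy.2.1]))
    have h3 := Set.ncard_le_ncard hsub (Set.toFinite _)
    have h4 := Set.ncard_union_le
      ((fun z : V × V => s(z.1, z.2)) '' {z | z ∈ E' ∧ z.1 = v ∧ l z = i})
      ((fun z : V × V => s(z.1, z.2)) '' {z | z ∈ E' ∧ z.2 = v ∧ l z = i})
    omega

end Pool.Agent.Helper75_LA
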