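import Mathlib
import Pool.Agent.Helper75_LA.Fold
import Pool.Agent.Helper75_LA.Petersen

set_option autoImplicit false

open SimpleGraph Pool.Agent.Helper14_LA

namespace Pool.Agent.Helper75_LA

variable {V : Type*}

/-- Neighbours of an edge in the line graph, class by class. -/
lemma lineGraph_count [Finite V] (G : SimpleGraph V) (c : Sym2 V → ℕ) (k : ℕ) (i : ℕ)
    (hc : ∀ v, ({e | e ∈ G.edgeSet ∧ v ∈ e ∧ c e = i} : Set (Sym2 V)).ncard ≤ k)
    (x : G.edgeSet) :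
    ({y | G.lineGraph.Adj x y ∧ c (y : Sym2 V) = i} : Set G.edgeSet).ncard ≤ 2 * k := by
  obtain ⟨e, he⟩ := x
  induction e with
  | _ u v =>
  rw [← Set.ncard_image_of_injective _ Subtype.val_injective]
  have hsub : (Subtype.val '' ({y | G.lineGraph.Adj ⟨s(u, v), he⟩ y ∧ c (y : Sym2 V) = i} :
      Set G.edgeSet)) ⊆
      {e | e ∈ G.edgeSet ∧ u ∈ e ∧ c e = i} ∪ {e | e ∈ G.edgeSet ∧ v ∈ e ∧ c e = i} := by
    rintro _ ⟨y, ⟨h1, h2⟩, rfl⟩
    rw [lineGraph_adj_iff_exists] at h1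
    obtain ⟨_, w, hw1, hw2⟩ := h1
    simp only [Sym2.mem_iff] at hw1
    rcases hw1 with rfl | rfl
    · exact Or.inl ⟨y.2, hw2, h2⟩
    · exact Or.inr ⟨y.2, hw2, h2⟩
  have h1 := Set.ncard_le_ncard hsub (Set.toFinite _)
  have h2 := Set.ncard_union_le ({e | e ∈ G.edgeSet ∧ u ∈ e ∧ c e = i} : Set (Sym2 V))
    {e | e ∈ G.edgeSet ∧ v ∈ e ∧ c e = i}
  have h3 := hc u
  have h4 := hc v
  omega

/-- Neighbours of an edge in the line graph inside its own class. -/
lemma lineGraph_count_own [Finite V] (G : SimpleGraph V) (c : Sym2 V → ℕ) (k : ℕ)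
    (x : G.edgeSet)
    (hc : ∀ v, ({e | e ∈ G.edgeSet ∧ v ∈ e ∧ c e = c (x : Sym2 V)} : Set (Sym2 V)).ncard ≤ k) :
    ({y | G.lineGraph.Adj x y ∧ c (y : Sym2 V) = c (x : Sym2 V)} : Set G.edgeSet).ncard
      ≤ 2 * (k - 1) := by
  obtain ⟨e, he⟩ := x
  induction e with
  | _ u v =>
  rw [← Set.ncard_image_of_injective _ Subtype.val_injective]
  have hsub : (Subtype.val '' ({y | G.lineGraph.Adj ⟨s(u, v), he⟩ y ∧
      c (y : Sym2 V) = c s(u, v)} : Set G.edgeSet)) ⊆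
      ({e | e ∈ G.edgeSet ∧ u ∈ e ∧ c e = c s(u, v)} \ {s(u, v)}) ∪
      ({e | e ∈ G.edgeSet ∧ v ∈ e ∧ c e = c s(u, v)} \ {s(u, v)}) := by
    rintro _ ⟨y, ⟨h1, h2⟩, rfl⟩
    rw [lineGraph_adj_iff_exists] at h1
    obtain ⟨h0, w, hw1, hw2⟩ := h1
    have hne : (y : Sym2 V) ≠ s(u, v) := fun h => h0 (Subtype.ext h.symm)
    simp only [Sym2.mem_iff] at hw1
    rcases hw1 with rfl | rfl
    · exact Or.inl ⟨⟨y.2, hw2, h2⟩, hne⟩
    · exact Or.inr ⟨⟨y.2, hw2, h2⟩, hne⟩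
  have h1 := Set.ncard_le_ncard hsub (Set.toFinite _)
  have h2 := Set.ncard_union_le ({e | e ∈ G.edgeSet ∧ u ∈ e ∧ c e = c s(u, v)} \ {s(u, v)} :
    Set (Sym2 V)) ({e | e ∈ G.edgeSet ∧ v ∈ e ∧ c e = c s(u, v)} \ {s(u, v)})
  have h3 := Set.ncard_sdiff_singleton_of_mem (s := ({e | e ∈ G.edgeSet ∧ u ∈ e ∧
    c e = c s(u, v)} : Set (Sym2 V))) (a := s(u, v)) ⟨he, by simp, rfl⟩
  have h4 := Set.ncard_sdiff_singleton_of_mem (s := ({e | e ∈ G.edgeSet ∧ v ∈ e ∧
    c e = c s(u, v)} : Set (Sym2 V))) (a := s(u, v)) ⟨he, by simp, rfl⟩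
  have h5 := hc u
  have h6 := hc v
  simp only at h5 h6
  show (Subtype.val '' ({y | G.lineGraph.Adj ⟨s(u, v), he⟩ y ∧
      c (y : Sym2 V) = c s(u, v)} : Set G.edgeSet)).ncard ≤ 2 * (k - 1)
  omega

/-- The line graph of a `2h`-regular graph is a union of `2h` linear forests. -/
theorem lineGraph_even [Finite V] (G : SimpleGraph V) (h : ℕ)
    (hG : ∀ v, (G.neighborSet v).ncard = 2 * h) : CoveredBy G.lineGraph (2 * h) := by
  obtain ⟨c, hc1, hc2⟩ := petersen G h hG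
  refine four_core G.lineGraph h (fun e => c (e : Sym2 V)) (fun e => hc1 e e.2) ?_ ?_
  · intro x i _
    exact lineGraph_count G c 2 i (fun v => hc2 v i) x
  · intro x
    exact lineGraph_count_own G c 2 x (fun v => hc2 v _)

/-- The line graph of a `(2h+1)`-regular graph with a perfect matching is a union of `2h+1`
linear forests. -/
theorem lineGraph_odd [Finite V] (G : SimpleGraph V) (h : ℕ)
    (hG : ∀ v, (G.neighborSet v).ncard = 2 * h + 1) (M : G.Subgraph)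
    (hM : M.IsPerfectMatching) : CoveredBy G.lineGraph (2 * h + 1) := by
  classical
  set G' : SimpleGraph V := G \ M.spanningCoe with hG'
  have hadj : ∀ u v, G'.Adj u v ↔ G.Adj u v ∧ ¬ M.Adj u v := fun u v => by
    rw [hG', sdiff_adj, Subgraph.spanningCoe_adj]
  have hMex : ∀ v, ∃! w, M.Adj v w := fun v => hM.1 (hM.2 v)
  have hG'reg : ∀ v, (G'.neighborSet v).ncard = 2 * h := by
    intro v
    obtain ⟨w, hw, hw'⟩ := hMex v
    have h1 : G'.neighborSet v = G.neighborSet v \ {w} := by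
      ext y
      simp only [mem_neighborSet, hadj, Set.mem_sdiff, Set.mem_singleton_iff]
      constructor
      · rintro ⟨h1, h2⟩
        exact ⟨h1, fun h => h2 (h ▸ hw)⟩
      · rintro ⟨h1, h2⟩
        exact ⟨h1, fun h => h2 (hw' y h)⟩
    rw [h1, Set.ncard_sdiff_singleton_of_mem (show w ∈ G.neighborSet v from hw.adj_sub), hG]
    rfl
  obtain ⟨c, hc1, hc2⟩ := petersen G' h hG'reg
  let c' : Sym2 V → ℕ := fun e => if e ∈ M.edgeSet then h else c e
  have hmem' : ∀ e, e ∈ G.edgeSet → e ∉ M.edgeSet → e ∈ G'.edgeSet := by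
    intro e he hM'
    induction e with
    | _ u v =>
    rw [mem_edgeSet, hadj]
    exact ⟨he, hM'⟩
  have hclt : ∀ e, e ∈ G.edgeSet → e ∉ M.edgeSet → c' e < h := by
    intro e he hM'
    simp only [c', if_neg hM']
    exact hc1 e (hmem' e he hM')
  have hcle : ∀ e, e ∈ G.edgeSet → c' e ≤ h := by
    intro e he
    by_cases hM' : e ∈ M.edgeSet
    · simp only [c', if_pos hM']
      exact le_rfl
    · exact (hclt e he hM').le
  have hcM : ∀ e, e ∈ G.edgeSet → c' e = h → e ∈ M.edgeSet := by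
    intro e he hc
    by_contra hM'
    have := hclt e he hM'
    omega
  have hsmall : ∀ v i, i < h →
      ({e | e ∈ G.edgeSet ∧ v ∈ e ∧ c' e = i} : Set (Sym2 V)).ncard ≤ 2 := by
    intro v i hi
    refine le_trans (Set.ncard_le_ncard ?_ (Set.toFinite _)) (hc2 v i)
    rintro e ⟨h1, h2, h3⟩
    have hM' : e ∉ M.edgeSet := by
      intro hM'
      simp only [c', if_pos hM'] at h3
      omega
    refine ⟨hmem' e h1 hM', h2, ?_⟩
    simpa only [c', if_neg hM'] using h3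
  have hone : ∀ v, ∀ e ∈ M.edgeSet, v ∈ e → ∀ e' ∈ M.edgeSet, v ∈ e' → e = e' := by
    intro v e he hve e' he' hve'
    obtain ⟨w, hw⟩ := hve
    obtain ⟨w', hw'⟩ := hve'
    subst hw hw'
    have h1 : M.Adj v w := he
    have h2 : M.Adj v w' := he'
    rw [(hMex v).unique h1 h2]
  refine fold_core G.lineGraph h (fun e => c' (e : Sym2 V)) (fun e => hcle e e.2) ?_ ?_ ?_ ?_
  · intro x i hi _
    exact lineGraph_count G c' 2 i (fun v => hsmall v i hi) x
  · intro x hx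
    exact lineGraph_count_own G c' 2 x (fun v => hsmall v _ hx)
  · intro x _
    refine lineGraph_count G c' 1 h (fun v => ?_) x
    refine ncard_le_one_of (fun e he e' he' => ?_)
    exact hone v e (hcM e he.1 he.2.2) he.2.1 e' (hcM e' he'.1 he'.2.2) he'.2.1
  · intro x y hxy hx
    by_contra hcon
    have hy : c' (y : Sym2 V) = h := le_antisymm (hcle _ y.2) (not_lt.1 hcon)
    rw [lineGraph_adj_iff_exists] at hxy
    obtain ⟨h0, w, hw1, hw2⟩ := hxy
    exact h0 (Subtype.ext (hone w _ (hcM _ x.2 hx) hw1 _ (hcM _ y.2 hy) hw2))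

/-- The line graph of a `d`-regular graph is `(2d-2)`-regular. -/
lemma lineGraph_regular [Finite V] (G : SimpleGraph V) (d : ℕ)
    (hG : ∀ v, (G.neighborSet v).ncard = d) (x : G.edgeSet) :
    (G.lineGraph.neighborSet x).ncard = 2 * d - 2 := by
  classical
  have := Fintype.ofFinite V
  have hinc : ∀ v, (G.incidenceSet v).ncard = d := by
    intro v
    rw [← hG v, ← Nat.card_coe_set_eq, ← Nat.card_coe_set_eq]
    exact Nat.card_congr (G.incidenceSetEquivNeighborSet v)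
  obtain ⟨e, he⟩ := x
  induction e with
  | _ u v =>
  have huv : G.Adj u v := he
  have himg : (Subtype.val '' (G.lineGraph.neighborSet ⟨s(u, v), he⟩)) =
      (G.incidenceSet u \ {s(u, v)}) ∪ (G.incidenceSet v \ {s(u, v)}) := by
    ext e'
    constructor
    · rintro ⟨y, h1, rfl⟩
      rw [mem_neighborSet, lineGraph_adj_iff_exists] at h1
      obtain ⟨h0, w, hw1, hw2⟩ := h1
      have hne : (y : Sym2 V) ≠ s(u, v) := fun h => h0 (Subtype.ext h.symm)
      simp only [Sym2.mem_iff] at hw1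
      rcases hw1 with rfl | rfl
      · exact Or.inl ⟨⟨y.2, hw2⟩, hne⟩
      · exact Or.inr ⟨⟨y.2, hw2⟩, hne⟩
    · rintro (⟨⟨h1, h2⟩, h3⟩ | ⟨⟨h1, h2⟩, h3⟩)
      · refine ⟨⟨e', h1⟩, ?_, rfl⟩
        rw [mem_neighborSet, lineGraph_adj_iff_exists]
        exact ⟨fun h => h3 (congrArg Subtype.val h).symm, u, by simp, h2⟩
      · refine ⟨⟨e', h1⟩, ?_, rfl⟩
        rw [mem_neighborSet, lineGraph_adj_iff_exists]
        exact ⟨fun h => h3 (congrArg Subtype.val h).symm, v, by simp, h2⟩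
  rw [← Set.ncard_image_of_injective _ Subtype.val_injective, himg, Set.ncard_union_eq]
  · have m1 : s(u, v) ∈ G.incidenceSet u := ⟨he, by simp⟩
    have m2 : s(u, v) ∈ G.incidenceSet v := ⟨he, by simp⟩
    rw [Set.ncard_sdiff_singleton_of_mem m1, Set.ncard_sdiff_singleton_of_mem m2, hinc, hinc]
    omega
  · rw [Set.disjoint_left]
    rintro e' ⟨⟨_, h1⟩, h2⟩ ⟨⟨_, h3⟩, _⟩
    exact h2 ((Sym2.mem_and_mem_iff huv.ne).1 ⟨h1, h3⟩)

end Pool.Agent.Helper75_LA
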